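import Pool.Agent.Helper52.KP.StM

/-!
# Project KP, module DER (derivative at zero)
-/

set_option autoImplicit false

namespace Pool.Agent.Helper61.KP

open Pool.Agent.Helper52.KP MeasureTheory Filter
open scoped ContDiff ComplexOrder Topology ENNReal

/-! ### Elementary inequalities -/

theorem el1 (a β C₁ : ℝ) (ha0 : 0 < a) (ha1 : a ≤ 1) (hβ : 0 < β) (hC : 1 ≤ C₁)
    (hb : β ^ (-a) ≤ C₁) : |β ^ (-a) - 1| ≤ 2 * C₁ * |β - 1| := by
  rcases le_total 1 β with h1 | h1
  · have e1 : β ^ (-a) ≤ 1 := Real.rpow_le_one_of_one_le_of_nonpos h1 (by linarith)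
    have e2 : β ^ (-1 : ℝ) ≤ β ^ (-a) := Real.rpow_le_rpow_of_exponent_le h1 (by linarith)
    rw [Real.rpow_neg_one] at e2
    have e3 : 2 - β ≤ β⁻¹ := by
      rw [← sub_nonneg]
      have : β⁻¹ - (2 - β) = (β - 1) ^ 2 * β⁻¹ := by field_simp; ring
      rw [this]; positivity
    rw [abs_of_nonpos (by linarith), abs_of_nonneg (by linarith)]
    nlinarith [mul_nonneg (sub_nonneg.mpr h1) (by linarith : (0:ℝ) ≤ 2 * C₁ - 1)]
  · have e1 : 1 ≤ β ^ (-a) := Real.one_le_rpow_of_pos_of_le_one_of_nonpos hβ h1 (by linarith)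
    rw [abs_of_nonneg (by linarith), abs_of_nonpos (by linarith)]
    rcases le_total (1 / 2) β with h2 | h2
    · have e2 : β ^ (-a) ≤ β ^ (-1 : ℝ) := Real.rpow_le_rpow_of_exponent_ge hβ h1 (by linarith)
      rw [Real.rpow_neg_one] at e2
      have e3 : β⁻¹ - 1 ≤ 2 * (1 - β) := by
        rw [← sub_nonneg]
        have : 2 * (1 - β) - (β⁻¹ - 1) = (1 - β) * (2 * β - 1) * β⁻¹ := by field_simp
        rw [this]
        have := mul_nonneg (sub_nonneg.mpr h1) (by linarith : (0:ℝ) ≤ 2 * β - 1)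
        positivity
      nlinarith [mul_nonneg (sub_nonneg.mpr h1) (by linarith : (0:ℝ) ≤ 2 * C₁ - 2)]
    · nlinarith [mul_nonneg (by linarith : (0:ℝ) ≤ 1 / 2 - β) (by linarith : (0:ℝ) ≤ 2 * C₁)]

theorem quot_est {X : Type*} [MeasurableSpace X] (μ : Measure X) [IsFiniteMeasure μ] (V : ℝ)
    (hV : 0 < V) (hμ : (μ Set.univ).toReal = V) (h q : X → ℝ) (hm : AEStronglyMeasurable h μ)
    (M : ℝ) (h0 : ∀ x, 0 ≤ h x) (hM : ∀ x, h x ≤ M) (hq : AEStronglyMeasurable q μ) (δ : ℝ)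
    (hδ0 : 0 ≤ δ) (hδ : δ ≤ 1 / 2)
    (hint : ∫⁻ x, ENNReal.ofReal |q x - 1| ∂μ ≤ ENNReal.ofReal (δ * V)) :
    Integrable q μ ∧ 0 < ∫ x, q x ∂μ ∧
      |(∫ x, h x * q x ∂μ) / (∫ x, q x ∂μ) - (∫ x, h x ∂μ) / V| ≤ 4 * M * δ := by
  have hX : ∃ x : X, True := by
    by_contra hne
    push Not at hne
    have : (Set.univ : Set X) = ∅ := by ext x; exact (hne x).elim
    rw [this] at hμ
    simp at hμ
    linarith
  obtain ⟨x₀, -⟩ := hX
  have hM0 : 0 ≤ M := (h0 x₀).trans (hM x₀)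
  have i1 : Integrable (fun x => q x - 1) μ := by
    refine ⟨hq.sub aestronglyMeasurable_const, ?_⟩
    rw [hasFiniteIntegral_iff_norm]
    exact lt_of_le_of_lt hint ENNReal.ofReal_lt_top
  have iq : Integrable q μ := by
    have := i1.add (integrable_const (1 : ℝ))
    refine this.congr (Eventually.of_forall fun x => ?_)
    simp
  have ih : Integrable h μ := by
    refine Integrable.mono' (integrable_const M) hm (Eventually.of_forall fun x => ?_)
    rw [Real.norm_of_nonneg (h0 x)]; exact hM x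
  have a1 : ∫ x, |q x - 1| ∂μ ≤ δ * V := by
    rw [integral_eq_lintegral_of_nonneg_ae (Eventually.of_forall fun x => abs_nonneg _)
      i1.1.norm]
    have := ENNReal.toReal_mono ENNReal.ofReal_ne_top hint
    rwa [ENNReal.toReal_ofReal (by positivity)] at this
  have ihq1 : Integrable (fun x => h x * (q x - 1)) μ :=
    i1.bdd_mul hm (Eventually.of_forall fun x => by rw [Real.norm_of_nonneg (h0 x)]; exact hM x)
  have e1 : ∫ x, q x ∂μ - V = ∫ x, (q x - 1) ∂μ := by
    rw [integral_sub iq (integrable_const _), integral_const, measureReal_def, hμ]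
    simp
  have e2 : ∫ x, h x * q x ∂μ - ∫ x, h x ∂μ = ∫ x, h x * (q x - 1) ∂μ := by
    rw [← integral_sub _ ih]
    · congr 1; ext x; ring
    · have := ihq1.add ih
      refine this.congr (Eventually.of_forall fun x => ?_)
      simp; ring
  have b1 : |∫ x, q x ∂μ - V| ≤ δ * V := by
    rw [e1]
    exact (abs_integral_le_integral_abs).trans a1
  have b2 : |∫ x, h x * q x ∂μ - ∫ x, h x ∂μ| ≤ M * (δ * V) := by
    rw [e2]
    refine (abs_integral_le_integral_abs).trans ?_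
    calc ∫ x, |h x * (q x - 1)| ∂μ ≤ ∫ x, M * |q x - 1| ∂μ := by
          refine integral_mono_of_nonneg (Eventually.of_forall fun x => abs_nonneg _)
            (i1.abs.const_mul M) (Eventually.of_forall fun x => ?_)
          simp only
          rw [abs_mul, abs_of_nonneg (h0 x)]
          exact mul_le_mul_of_nonneg_right (hM x) (abs_nonneg _)
      _ = M * ∫ x, |q x - 1| ∂μ := integral_const_mul _ _
      _ ≤ M * (δ * V) := mul_le_mul_of_nonneg_left a1 hM0
  have b3 : 0 ≤ ∫ x, h x ∂μ := integral_nonneg h0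
  have b4 : ∫ x, h x ∂μ ≤ M * V := by
    calc ∫ x, h x ∂μ ≤ ∫ _x, M ∂μ := integral_mono ih (integrable_const _) hM
      _ = M * V := by rw [integral_const, measureReal_def, hμ]; simp [mul_comm]
  set A := ∫ x, h x * q x ∂μ with hA
  set B := ∫ x, q x ∂μ with hB
  set H := ∫ x, h x ∂μ with hH
  have b5 : V / 2 ≤ B := by
    have := (abs_le.mp b1).1
    nlinarith
  have b6 : 0 < B := by linarith
  refine ⟨iq, b6, ?_⟩
  have e3 : A / B - H / V = ((A - H) * V - H * (B - V)) / (B * V) := by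
    field_simp; ring
  rw [e3, abs_div, abs_of_pos (by positivity : 0 < B * V), div_le_iff₀ (by positivity)]
  calc |(A - H) * V - H * (B - V)| ≤ |(A - H) * V| + |H * (B - V)| := abs_sub _ _
    _ = |A - H| * V + H * |B - V| := by
        rw [abs_mul, abs_mul, abs_of_pos hV, abs_of_nonneg b3]
    _ ≤ M * (δ * V) * V + M * V * (δ * V) := by
        gcongr
    _ = 4 * M * δ * (V / 2 * V) := by ring
    _ ≤ 4 * M * δ * (B * V) := by
        gcongr

/-! ### The domain and the measure -/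

theorem cont_ev {m : ℕ} (P : MvPolynomial (Fin m) ℂ) : Continuous (fun z => ev P z) :=
  MvPolynomial.continuous_eval P

theorem isOpen_U (C : Cone) : IsOpen C.U :=
  (isOpen_compl_singleton (x := (0 : ℂ))).preimage (cont_ev C.Δ)

theorem meas_U (C : Cone) : MeasurableSet C.U := (isOpen_U C).measurableSet

open Classical in
/-- the potential, equal to `1` off `U` -/
noncomputable def up (C : Cone) : (Fin C.m → ℂ) → ℝ := C.U.piecewise C.u (fun _ => 1)

theorem up_eq (C : Cone) {z : Fin C.m → ℂ} (hz : z ∈ C.U) : up C z = C.u z := by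
  classical
  rw [up, Set.piecewise_eq_of_mem _ _ _ hz]

theorem meas_up (C : Cone) (hC : Good C) : Measurable (up C) := by
  classical
  unfold up
  exact ContinuousOn.measurable_piecewise hC.usm.continuousOn continuousOn_const (meas_U C)

theorem u_pos (C : Cone) (hC : Good C) {z : Fin C.m → ℂ} (hz : z ∈ C.U) : 0 < C.u z := by
  obtain ⟨a, b, ha, hab⟩ := hC.ubd
  exact lt_of_lt_of_le (mul_pos ha (hC.Xpos z hz)) (hab z hz).1

theorem up_pos (C : Cone) (hC : Good C) (z : Fin C.m → ℂ) : 0 < up C z := by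
  classical
  by_cases hz : z ∈ C.U
  · rw [up_eq C hz]; exact u_pos C hC hz
  · rw [up, Set.piecewise_eq_of_notMem _ _ _ hz]; norm_num

/-- the sublevel set -/
def W1 (C : Cone) : Set (Fin C.m → ℂ) := {z | z ∈ C.U ∧ C.u z < 1}

theorem meas_W1 (C : Cone) (hC : Good C) : MeasurableSet (W1 C) := by
  have : W1 C = C.U ∩ {z | up C z < 1} := by
    ext z
    constructor
    · rintro ⟨h1, h2⟩
      exact ⟨h1, by simpa [up_eq C h1] using h2⟩
    · rintro ⟨h1, h2⟩
      exact ⟨h1, by simpa [up_eq C h1] using h2⟩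
  rw [this]
  exact (meas_U C).inter (measurableSet_lt (meas_up C hC) measurable_const)

theorem meas_J (C : Cone) : Measurable (fun z => ENNReal.ofReal (‖ev C.J z‖ ^ 2)) :=
  ((cont_ev C.J).norm.pow 2).measurable.ennreal_ofReal

theorem lint_nu (C : Cone) {A : Set (Fin C.m → ℂ)} (hA : MeasurableSet A)
    {f : (Fin C.m → ℂ) → ℝ} (hf : Measurable f) (h0 : ∀ z ∈ A, 0 ≤ f z) :
    ∫⁻ z in A, ENNReal.ofReal (f z) ∂C.nu = ∫⁻ z in A, ENNReal.ofReal (f z * ‖ev C.J z‖ ^ 2) := by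
  rw [Cone.nu, restrict_withDensity hA, lintegral_withDensity_eq_lintegral_mul _ (meas_J C)
    hf.ennreal_ofReal]
  refine setLIntegral_congr_fun hA fun z hz => ?_
  simp only [Pi.mul_apply]
  rw [ENNReal.ofReal_mul (h0 z hz), mul_comm]

theorem int_nu (C : Cone) {A : Set (Fin C.m → ℂ)} (hA : MeasurableSet A)
    {f : (Fin C.m → ℂ) → ℝ} (hf : Measurable f) (h0 : ∀ z ∈ A, 0 ≤ f z) :
    ∫ z in A, f z * ‖ev C.J z‖ ^ 2 = (∫⁻ z in A, ENNReal.ofReal (f z) ∂C.nu).toReal := by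
  rw [lint_nu C hA hf h0, integral_eq_lintegral_of_nonneg_ae]
  · filter_upwards [ae_restrict_mem hA] with z hz
    have := h0 z hz
    simp only [Pi.zero_apply]
    positivity
  · exact (hf.mul ((cont_ev C.J).norm.pow 2).measurable).aestronglyMeasurable

theorem int_nu' (C : Cone) {A : Set (Fin C.m → ℂ)} (hA : MeasurableSet A)
    {f : (Fin C.m → ℂ) → ℝ} (hf : Measurable f) (h0 : ∀ z ∈ A, 0 ≤ f z) :
    ∫ z in A, f z ∂C.nu = (∫⁻ z in A, ENNReal.ofReal (f z) ∂C.nu).toReal := by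
  rw [integral_eq_lintegral_of_nonneg_ae]
  · filter_upwards [ae_restrict_mem hA] with z hz
    exact h0 z hz
  · exact hf.aestronglyMeasurable

/-! ### The scaling formula for exponentials -/

theorem sca_exp (hSCA : StSCA) (C : Cone) (hC : Good C) (D : ℝ) (hD : 0 < D)
    (ψ g : (Fin C.m → ℂ) → ℝ) (hψ : Measurable ψ) (hg : Measurable g)
    (hh : ∀ z ∈ C.U, 0 < ψ z ∧ ∀ c : ℂ, c ≠ 0 → ψ (scl C.w c z) = ‖c‖ ^ D * ψ z ∧
      g (scl C.w c z) = g z)
    (hfin : ∫⁻ z in {z | z ∈ C.U ∧ ψ z < 1}, ENNReal.ofReal (g z) ∂C.nu ≠ ⊤)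
    (p : ℝ) (hp : 0 ≤ p) :
    ∫⁻ z in C.U, ENNReal.ofReal (ψ z ^ p * Real.exp (-ψ z)) * ENNReal.ofReal (g z) ∂C.nu =
      ENNReal.ofReal (C.m / D * Real.Gamma (p + C.m / D)) *
        ∫⁻ z in {z | z ∈ C.U ∧ ψ z < 1}, ENNReal.ofReal (g z) ∂C.nu := by
  have hm : (0 : ℝ) < C.m := by
    have := hC.hn
    have h2 := hC.hm
    exact_mod_cast (by omega : 0 < C.m)
  have hΦ : Measurable (fun s : ℝ => ENNReal.ofReal (s ^ p * Real.exp (-s))) :=
    ((measurable_id.pow_const p).mul (Real.measurable_exp.comp measurable_neg)).ennreal_ofReal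
  have key := hSCA C hC D 0 hD (by linarith) ψ (fun z => ENNReal.ofReal (g z)) hψ
    hg.ennreal_ofReal (fun z hz => ⟨(hh z hz).1, fun c hc => ⟨((hh z hz).2 c hc).1, by
      rw [((hh z hz).2 c hc).2, Real.rpow_zero, ENNReal.ofReal_one, one_mul]⟩⟩) hfin
    (fun s => ENNReal.ofReal (s ^ p * Real.exp (-s))) hΦ
  rw [key]
  congr 1
  have hpos : 0 < p + C.m / D := by positivity
  rw [Real.Gamma_eq_integral hpos, ← integral_const_mul, ofReal_integral_eq_lintegral_ofReal]
  · refine setLIntegral_congr_fun measurableSet_Ioi fun s hs => ?_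
    have hs' : (0 : ℝ) < s := hs
    rw [← ENNReal.ofReal_mul (by positivity)]
    congr 1
    rw [add_zero, show s ^ (p + C.m / D - 1) = s ^ p * s ^ (C.m / D - 1) by
      rw [← Real.rpow_add hs']; congr 1; ring]
    ring
  · exact (Real.GammaIntegral_convergent hpos).const_mul _
  · filter_upwards [ae_restrict_mem measurableSet_Ioi] with s hs
    have hs' : (0 : ℝ) < s := hs
    change 0 ≤ _
    positivity

/-! ### The functions `∑ |s_j|²` and `∑ λ_j |s_j|²` -/

/-- `∑ |s_j|²` -/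
noncomputable def SS {m N : ℕ} (s : Fin N → MvPolynomial (Fin m) ℂ) (z : Fin m → ℂ) : ℝ :=
  ∑ j, ‖ev (s j) z‖ ^ 2

/-- `∑ λ_j |s_j|²` -/
noncomputable def QQ {m N : ℕ} (s : Fin N → MvPolynomial (Fin m) ℂ) (lam : Fin N → ℕ)
    (z : Fin m → ℂ) : ℝ := ∑ j, (lam j : ℝ) * ‖ev (s j) z‖ ^ 2

section SQ

variable {m N : ℕ} (s : Fin N → MvPolynomial (Fin m) ℂ) (lam : Fin N → ℕ)

theorem PP_zero (z : Fin m → ℂ) : PP s lam 0 z = SS s z := by
  simp [PP, SS]

theorem PPn_zero (z : Fin m → ℂ) : PPn 1 s lam 0 z = QQ s lam z := by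
  simp [PPn, QQ]

theorem meas_SS : Measurable (SS s) :=
  (continuous_finsetSum _ fun j _ => (cont_ev (s j)).norm.pow 2).measurable

theorem meas_QQ : Measurable (QQ s lam) :=
  (continuous_finsetSum _ fun j _ => continuous_const.mul
    ((cont_ev (s j)).norm.pow 2)).measurable

theorem meas_exp : Measurable (fun z => Real.exp (-SS s z)) :=
  Real.measurable_exp.comp (meas_SS s).neg

theorem meas_Qexp : Measurable (fun z => QQ s lam z * Real.exp (-SS s z)) :=
  (meas_QQ s lam).mul (meas_exp s)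

theorem SS_nonneg (z : Fin m → ℂ) : 0 ≤ SS s z := Finset.sum_nonneg fun j _ => by positivity

theorem QQ_nonneg (z : Fin m → ℂ) : 0 ≤ QQ s lam z := Finset.sum_nonneg fun j _ => by positivity

theorem QQ_le (M : ℝ) (hM : ∀ j, (lam j : ℝ) ≤ M) (z : Fin m → ℂ) : QQ s lam z ≤ M * SS s z := by
  rw [QQ, SS, Finset.mul_sum]
  exact Finset.sum_le_sum fun j _ => mul_le_mul_of_nonneg_right (hM j) (by positivity)

theorem g_nonneg (z : Fin m → ℂ) : 0 ≤ QQ s lam z / SS s z :=
  div_nonneg (QQ_nonneg s lam z) (SS_nonneg s z)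

theorem g_le (M : ℝ) (hM0 : 0 ≤ M) (hM : ∀ j, (lam j : ℝ) ≤ M) (z : Fin m → ℂ) :
    QQ s lam z / SS s z ≤ M := by
  rcases (SS_nonneg s z).eq_or_lt with h | h
  · rw [← h, div_zero]; exact hM0
  · rw [div_le_iff₀ h]; exact QQ_le s lam M hM z

theorem meas_g : Measurable (fun z => QQ s lam z / SS s z) := (meas_QQ s lam).div (meas_SS s)

end SQ

theorem SS_scl (C : Cone) (hC : Good C) (D : ℕ) {N : ℕ} (s : Fin N → MvPolynomial (Fin C.m) ℂ)
    (hs : ∀ j, s j ∈ C.R D) (c : ℂ) (z : Fin C.m → ℂ) :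
    SS s (scl C.w c z) = ‖c‖ ^ (2 * D) * SS s z := by
  rw [SS, SS, Finset.mul_sum]
  refine Finset.sum_congr rfl fun j _ => ?_
  rw [hC.hom D _ (hs j) c z, norm_mul, norm_pow, mul_pow, ← pow_mul, mul_comm D 2]

theorem QQ_scl (C : Cone) (hC : Good C) (D : ℕ) {N : ℕ} (s : Fin N → MvPolynomial (Fin C.m) ℂ)
    (lam : Fin N → ℕ) (hs : ∀ j, s j ∈ C.R D) (c : ℂ) (z : Fin C.m → ℂ) :
    QQ s lam (scl C.w c z) = ‖c‖ ^ (2 * D) * QQ s lam z := by
  rw [QQ, QQ, Finset.mul_sum]
  refine Finset.sum_congr rfl fun j _ => ?_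
  rw [hC.hom D _ (hs j) c z, norm_mul, norm_pow, mul_pow, ← pow_mul, mul_comm D 2]
  ring

theorem g_scl (C : Cone) (hC : Good C) (D : ℕ) {N : ℕ} (s : Fin N → MvPolynomial (Fin C.m) ℂ)
    (lam : Fin N → ℕ) (hs : ∀ j, s j ∈ C.R D) (c : ℂ) (hc : c ≠ 0) (z : Fin C.m → ℂ) :
    QQ s lam (scl C.w c z) / SS s (scl C.w c z) = QQ s lam z / SS s z := by
  rw [SS_scl C hC D s hs, QQ_scl C hC D s lam hs, mul_div_mul_left]
  have := norm_pos_iff.mpr hc
  positivity

/-! ### The quotient of the integrals -/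

theorem rpow_2D (x : ℝ) (D : ℕ) : x ^ (2 * (D : ℝ)) = x ^ (2 * D) := by
  rw [← Real.rpow_natCast x (2 * D)]
  push_cast
  rfl

theorem E_eq (hSCA : StSCA) (hRAD : StRAD) (hDIF : StDIF) (C : Cone) (hC : Good C) (D : ℕ)
    (hD : 0 < D) {N : ℕ} (s : Fin N → MvPolynomial (Fin C.m) ℂ) (lam : Fin N → ℕ)
    (hs : ONB C D s) (hpos : ∀ z ∈ C.U, 0 < SS s z) (K : ℝ) (hK : 0 < K) :
    (∫ z in C.U, PPn 1 s lam 0 z * Real.exp (-PP s lam 0 z) * ‖ev C.J z‖ ^ 2) / C.ZZ s lam 0 =
    (∫ z in W1 C, (C.m / (2 * (D : ℝ)) * (QQ s lam z / SS s z)) *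
      (K * (SS s z / up C z ^ (2 * D))) ^ (-(C.m / (2 * (D : ℝ)))) ∂C.nu) /
      (∫ z in W1 C, (K * (SS s z / up C z ^ (2 * D))) ^ (-(C.m / (2 * (D : ℝ)))) ∂C.nu) := by
  have hsR : ∀ j, s j ∈ C.R D := fun j => by
    rw [← hs.span]; exact Submodule.subset_span ⟨j, rfl⟩
  have hm : (0 : ℝ) < C.m := by
    have := hC.hn
    have h2 := hC.hm
    exact_mod_cast (by omega : 0 < C.m)
  have hD' : (0 : ℝ) < 2 * (D : ℝ) := by positivity
  set a : ℝ := C.m / (2 * (D : ℝ)) with ha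
  have ha0 : 0 < a := by positivity
  have hU := meas_U C
  have hW := meas_W1 C hC
  -- the homogeneity
  have hS1 : ∀ z ∈ C.U, 0 < SS s z ∧ ∀ c : ℂ, c ≠ 0 →
      SS s (scl C.w c z) = ‖c‖ ^ (2 * (D : ℝ)) * SS s z ∧
      QQ s lam (scl C.w c z) / SS s (scl C.w c z) = QQ s lam z / SS s z := fun z hz =>
    ⟨hpos z hz, fun c hc => ⟨by rw [rpow_2D, SS_scl C hC D s hsR], g_scl C hC D s lam hsR c hc z⟩⟩
  -- finiteness
  obtain ⟨hZ, hInt, -, -⟩ := hDIF C hC D N hD s lam hs.span 0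
  have hSm : MeasurableSet {z | z ∈ C.U ∧ SS s z < 1} :=
    hU.inter (measurableSet_lt (meas_SS s) measurable_const)
  have fin0 : C.nu {z | z ∈ C.U ∧ SS s z < 1} ≠ ⊤ := by
    have e1 : ∫⁻ z in C.U, ENNReal.ofReal (Real.exp (-SS s z)) ∂C.nu < ⊤ := by
      rw [lint_nu C hU (meas_exp s) (fun z _ => (Real.exp_pos _).le)]
      have h1 := (hInt 0).2
      rw [hasFiniteIntegral_iff_norm] at h1
      refine lt_of_le_of_lt (lintegral_mono fun z => ?_) h1
      refine ENNReal.ofReal_le_ofReal ?_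
      rw [Real.norm_of_nonneg (by simp only [pow_zero]; positivity), PP_zero]
      simp only [pow_zero]
      have : 0 ≤ Real.exp (-SS s z) * ‖ev C.J z‖ ^ 2 := by positivity
      nlinarith
    have e2 : ENNReal.ofReal (Real.exp (-1)) * C.nu {z | z ∈ C.U ∧ SS s z < 1} ≤
        ∫⁻ z in C.U, ENNReal.ofReal (Real.exp (-SS s z)) ∂C.nu := by
      rw [← setLIntegral_const]
      refine (setLIntegral_mono_ae' hSm ?_).trans (lintegral_mono_set fun z hz => hz.1)
      refine Eventually.of_forall fun z hz => ENNReal.ofReal_le_ofReal (Real.exp_le_exp.mpr ?_)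
      linarith [hz.2]
    intro h
    rw [h, ENNReal.mul_top (by simp [Real.exp_pos])] at e2
    exact absurd e1 (not_lt.mpr e2)
  have fin1 : ∫⁻ z in {z | z ∈ C.U ∧ SS s z < 1}, ENNReal.ofReal (QQ s lam z / SS s z) ∂C.nu ≠ ⊤ := by
    have : ∫⁻ z in {z | z ∈ C.U ∧ SS s z < 1}, ENNReal.ofReal (QQ s lam z / SS s z) ∂C.nu ≤
        ∫⁻ _z in {z | z ∈ C.U ∧ SS s z < 1}, ENNReal.ofReal (∑ j, (lam j : ℝ)) ∂C.nu := by
      refine lintegral_mono fun z => ENNReal.ofReal_le_ofReal (g_le s lam _ ?_ ?_ z)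
      · positivity
      · intro j
        exact Finset.single_le_sum (f := fun j => (lam j : ℝ)) (fun i _ => by positivity)
          (Finset.mem_univ j)
    rw [setLIntegral_const] at this
    exact ne_top_of_le_ne_top (ENNReal.mul_ne_top ENNReal.ofReal_ne_top fin0) this
  -- the scaling formulas
  have k1 := sca_exp hSCA C hC (2 * (D : ℝ)) hD' (SS s) (fun z => QQ s lam z / SS s z)
    (meas_SS s) (meas_g s lam) hS1 fin1 1 zero_le_one
  have k0 := sca_exp hSCA C hC (2 * (D : ℝ)) hD' (SS s) (fun _ => 1)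
    (meas_SS s) measurable_const (fun z hz => ⟨hpos z hz, fun c hc => ⟨(hS1 z hz).2 c hc |>.1, rfl⟩⟩)
    (by simpa using fin0) 0 le_rfl
  have r1 := hRAD C hC (2 * (D : ℝ)) hD' (SS s) (fun z => ENNReal.ofReal (QQ s lam z / SS s z))
    (meas_SS s) (meas_g s lam).ennreal_ofReal (fun z hz => ⟨hpos z hz, fun c hc =>
      ⟨((hS1 z hz).2 c hc).1, by rw [((hS1 z hz).2 c hc).2]⟩⟩)
  have r0 := hRAD C hC (2 * (D : ℝ)) hD' (SS s) (fun z => ENNReal.ofReal 1)
    (meas_SS s) measurable_const (fun z hz => ⟨hpos z hz, fun c hc =>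
      ⟨((hS1 z hz).2 c hc).1, rfl⟩⟩)
  rw [r1] at k1
  rw [r0] at k0
  rw [← ha] at k1 k0
  -- the integrals
  have mβ : Measurable (fun z => (K * (SS s z / up C z ^ (2 * D))) ^ (-a)) :=
    (((meas_SS s).div ((meas_up C hC).pow_const _)).const_mul K).pow_const _
  have mgβ : Measurable (fun z => K ^ a * ((QQ s lam z / SS s z) *
      (K * (SS s z / up C z ^ (2 * D))) ^ (-a))) := ((meas_g s lam).mul mβ).const_mul _
  have mβ' : Measurable (fun z => K ^ a * (K * (SS s z / up C z ^ (2 * D))) ^ (-a)) :=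
    mβ.const_mul _
  have pβ : ∀ z, 0 ≤ K * (SS s z / up C z ^ (2 * D)) := fun z => by
    have := SS_nonneg s z
    have := up_pos C hC z
    positivity
  have conv : ∀ z ∈ W1 C, (SS s z / C.u z ^ (2 * (D : ℝ))) ^ (-(C.m / (2 * (D : ℝ)) : ℝ)) =
      K ^ a * (K * (SS s z / up C z ^ (2 * D))) ^ (-a) := by
    intro z hz
    rw [up_eq C hz.1, rpow_2D, ← ha]
    have h1 : 0 ≤ SS s z / C.u z ^ (2 * D) := by
      have := SS_nonneg s z
      have := u_pos C hC hz.1
      positivity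
    rw [Real.mul_rpow hK.le h1, ← mul_assoc, ← Real.rpow_add hK]
    simp
  have num : ∫ z in C.U, PPn 1 s lam 0 z * Real.exp (-PP s lam 0 z) * ‖ev C.J z‖ ^ 2 =
      Real.Gamma (1 + a) * K ^ a * ∫ z in W1 C, (a * (QQ s lam z / SS s z)) *
      (K * (SS s z / up C z ^ (2 * D))) ^ (-a) ∂C.nu := by
    have e1 : ∫ z in C.U, PPn 1 s lam 0 z * Real.exp (-PP s lam 0 z) * ‖ev C.J z‖ ^ 2 =
        ∫ z in C.U, (QQ s lam z * Real.exp (-SS s z)) * ‖ev C.J z‖ ^ 2 := by
      refine setIntegral_congr_fun hU fun z _ => ?_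
      simp only [PP_zero, PPn_zero]
    rw [e1, int_nu C hU (meas_Qexp s lam)
      (fun z _ => mul_nonneg (QQ_nonneg s lam z) (Real.exp_pos _).le)]
    have e2 : ∫⁻ z in C.U, ENNReal.ofReal (QQ s lam z * Real.exp (-SS s z)) ∂C.nu =
        ∫⁻ z in C.U, ENNReal.ofReal (SS s z ^ (1 : ℝ) * Real.exp (-SS s z)) *
          ENNReal.ofReal (QQ s lam z / SS s z) ∂C.nu := by
      refine setLIntegral_congr_fun hU fun z hz => ?_
      have h1 := hpos z hz
      rw [← ENNReal.ofReal_mul (by positivity), Real.rpow_one]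
      congr 1
      field_simp
    rw [e2, k1, ENNReal.toReal_mul, ENNReal.toReal_ofReal (by positivity)]
    have e3 : (∫⁻ z in {z | z ∈ C.U ∧ C.u z < 1}, ENNReal.ofReal (QQ s lam z / SS s z) *
        ENNReal.ofReal ((SS s z / C.u z ^ (2 * (D : ℝ))) ^ (-a)) ∂C.nu) =
        ∫⁻ z in W1 C, ENNReal.ofReal (K ^ a * ((QQ s lam z / SS s z) *
          (K * (SS s z / up C z ^ (2 * D))) ^ (-a))) ∂C.nu := by
      refine setLIntegral_congr_fun hW fun z hz => ?_
      have h2 := conv z hz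
      rw [← ha] at h2
      rw [h2, ← ENNReal.ofReal_mul (g_nonneg s lam z)]
      congr 1
      ring
    rw [e3, ← int_nu' C hW mgβ
      (fun z _ => mul_nonneg (by positivity) (mul_nonneg (g_nonneg s lam z)
        (Real.rpow_nonneg (pβ z) _)))]
    rw [integral_const_mul]
    have e4 : ∫ z in W1 C, (a * (QQ s lam z / SS s z)) *
        (K * (SS s z / up C z ^ (2 * D))) ^ (-a) ∂C.nu = a * ∫ z in W1 C, (QQ s lam z / SS s z) *
        (K * (SS s z / up C z ^ (2 * D))) ^ (-a) ∂C.nu := by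
      rw [← integral_const_mul]
      congr 1; ext z; ring
    rw [e4]; ring
  have den : C.ZZ s lam 0 = Real.Gamma (1 + a) * K ^ a * ∫ z in W1 C,
      (K * (SS s z / up C z ^ (2 * D))) ^ (-a) ∂C.nu := by
    have e1 : C.ZZ s lam 0 = ∫ z in C.U, Real.exp (-SS s z) * ‖ev C.J z‖ ^ 2 := by
      rw [Cone.ZZ]
      refine setIntegral_congr_fun hU fun z _ => ?_
      simp only [PP_zero]
    rw [e1, int_nu C hU (meas_exp s) (fun z _ => (Real.exp_pos _).le)]
    have e2 : ∫⁻ z in C.U, ENNReal.ofReal (Real.exp (-SS s z)) ∂C.nu =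
        ∫⁻ z in C.U, ENNReal.ofReal (SS s z ^ (0 : ℝ) * Real.exp (-SS s z)) *
          ENNReal.ofReal 1 ∂C.nu := by
      refine setLIntegral_congr_fun hU fun z hz => ?_
      simp
    rw [e2, k0, ENNReal.toReal_mul, zero_add, ENNReal.toReal_ofReal (by positivity)]
    have e3 : (∫⁻ z in {z | z ∈ C.U ∧ C.u z < 1}, ENNReal.ofReal 1 *
        ENNReal.ofReal ((SS s z / C.u z ^ (2 * (D : ℝ))) ^ (-a)) ∂C.nu) =
        ∫⁻ z in W1 C, ENNReal.ofReal (K ^ a * (K * (SS s z / up C z ^ (2 * D))) ^ (-a)) ∂C.nu := by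
      refine setLIntegral_congr_fun hW fun z hz => ?_
      have h2 := conv z hz
      rw [← ha] at h2
      rw [h2, ENNReal.ofReal_one, one_mul]
    rw [e3, ← int_nu' C hW mβ'
      (fun z _ => mul_nonneg (by positivity) (Real.rpow_nonneg (pβ z) _))]
    rw [integral_const_mul, add_comm 1 a, Real.Gamma_add_one ha0.ne']
    ring
  rw [num, den, mul_div_mul_left]
  have := Real.Gamma_pos_of_pos (by positivity : 0 < 1 + a)
  positivity

/-! ### The integrals of the single functions -/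

theorem I_eq (hSCA : StSCA) (hVOL : StVOL) (C : Cone) (hC : Good C) (D : ℕ) {N : ℕ}
    (s : Fin N → MvPolynomial (Fin C.m) ℂ) (hs : ONB C D s) (j : Fin N) :
    (C.m * Real.Gamma (2 * (D : ℝ) + C.m)) *
      (∫ z in W1 C, ‖ev (s j) z‖ ^ 2 / up C z ^ (2 * D) ∂C.nu) = 1 := by
  have hsR : s j ∈ C.R D := by
    rw [← hs.span]; exact Submodule.subset_span ⟨j, rfl⟩
  have hm : (0 : ℝ) < C.m := by
    have := hC.hn
    have h2 := hC.hm
    exact_mod_cast (by omega : 0 < C.m)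
  have hU := meas_U C
  have hW := meas_W1 C hC
  have mg : Measurable (fun z => ‖ev (s j) z‖ ^ 2 / up C z ^ (2 * D)) :=
    ((cont_ev (s j)).norm.pow 2).measurable.div ((meas_up C hC).pow_const _)
  have hset : {z | z ∈ C.U ∧ up C z < 1} = W1 C := by
    ext z
    constructor
    · rintro ⟨h1, h2⟩
      exact ⟨h1, by rwa [up_eq C h1] at h2⟩
    · rintro ⟨h1, h2⟩
      exact ⟨h1, by rwa [up_eq C h1]⟩
  have fin0 : C.nu (W1 C) ≠ ⊤ := by
    have := hVOL C hC
    rw [W1, this]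
    exact ENNReal.ofReal_ne_top
  obtain ⟨B, hB⟩ := hC.bdd D (s j) hsR
  obtain ⟨a, b, ha, hab⟩ := hC.ubd
  have fin1 : ∫⁻ z in W1 C, ENNReal.ofReal (‖ev (s j) z‖ ^ 2 / up C z ^ (2 * D)) ∂C.nu ≠ ⊤ := by
    have : ∫⁻ z in W1 C, ENNReal.ofReal (‖ev (s j) z‖ ^ 2 / up C z ^ (2 * D)) ∂C.nu ≤
        ∫⁻ _z in W1 C, ENNReal.ofReal (B ^ 2 / a ^ (2 * D)) ∂C.nu := by
      refine setLIntegral_mono_ae' hW (Eventually.of_forall fun z hz => ?_)
      refine ENNReal.ofReal_le_ofReal ?_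
      rw [up_eq C hz.1]
      have hu := u_pos C hC hz.1
      have hsz := hC.Xpos z hz.1
      rw [div_le_div_iff₀ (by positivity) (by positivity)]
      have h1 : ‖ev (s j) z‖ * a ^ D ≤ |B| * C.u z ^ D := by
        calc ‖ev (s j) z‖ * a ^ D ≤ (B * C.sz z ^ D) * a ^ D :=
              mul_le_mul_of_nonneg_right (hB z) (by positivity)
          _ ≤ (|B| * C.sz z ^ D) * a ^ D := by
              gcongr
              exact le_abs_self B
          _ = |B| * (a * C.sz z) ^ D := by rw [mul_pow]; ring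
          _ ≤ |B| * C.u z ^ D := by
              gcongr
              exact (hab z hz.1).1
      calc ‖ev (s j) z‖ ^ 2 * a ^ (2 * D) = (‖ev (s j) z‖ * a ^ D) ^ 2 := by
            rw [mul_pow, ← pow_mul, mul_comm D 2]
        _ ≤ (|B| * C.u z ^ D) ^ 2 := by gcongr
        _ = B ^ 2 * C.u z ^ (2 * D) := by rw [mul_pow, sq_abs, ← pow_mul, mul_comm D 2]
    rw [setLIntegral_const] at this
    exact ne_top_of_le_ne_top (ENNReal.mul_ne_top ENNReal.ofReal_ne_top fin0) this
  have key := sca_exp hSCA C hC 1 one_pos (up C) (fun z => ‖ev (s j) z‖ ^ 2 / up C z ^ (2 * D))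
    (meas_up C hC) mg (fun z hz => ⟨up_pos C hC z, fun c hc => by
      have hz' := hC.sclU c hc z hz
      rw [up_eq C hz, up_eq C hz', hC.uhom z hz c hc, hC.hom D _ hsR c z, Real.rpow_one]
      refine ⟨rfl, ?_⟩
      rw [norm_mul, norm_pow, mul_pow, mul_pow, ← pow_mul, mul_comm D 2, mul_div_mul_left]
      have := norm_pos_iff.mpr hc
      positivity⟩) (by rw [hset]; exact fin1) (2 * (D : ℝ)) (by positivity)
  rw [hset, div_one] at key
  -- the left side
  have l1 : ∫⁻ z in C.U, ENNReal.ofReal (up C z ^ (2 * (D : ℝ)) * Real.exp (-up C z)) *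
      ENNReal.ofReal (‖ev (s j) z‖ ^ 2 / up C z ^ (2 * D)) ∂C.nu =
      ∫⁻ z in C.U, ENNReal.ofReal (‖ev (s j) z‖ ^ 2 * Real.exp (-up C z)) ∂C.nu := by
    refine setLIntegral_congr_fun hU fun z hz => ?_
    have hu := up_pos C hC z
    rw [← ENNReal.ofReal_mul (by positivity), rpow_2D]
    congr 1
    field_simp
  have mexp : Measurable (fun z => ‖ev (s j) z‖ ^ 2 * Real.exp (-up C z)) :=
    ((cont_ev (s j)).norm.pow 2).measurable.mul (Real.measurable_exp.comp (meas_up C hC).neg)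
  have l2 : (∫⁻ z in C.U, ENNReal.ofReal (‖ev (s j) z‖ ^ 2 * Real.exp (-up C z)) ∂C.nu).toReal =
      1 := by
    rw [← int_nu C hU mexp (fun z _ => by positivity)]
    have h1 := hs.on j j
    rw [if_pos rfl, inn] at h1
    have h2 : ∫ z in C.U, ev (s j) z * ev C.J z * star (ev (s j) z * ev C.J z) *
        (Real.exp (-C.u z) : ℂ) =
        ∫ z in C.U, ((‖ev (s j) z‖ ^ 2 * Real.exp (-up C z) * ‖ev C.J z‖ ^ 2 : ℝ) : ℂ) := by
      refine setIntegral_congr_fun hU fun z hz => ?_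
      have h3 : ev (s j) z * ev C.J z * star (ev (s j) z * ev C.J z) =
          ((‖ev (s j) z * ev C.J z‖ ^ 2 : ℝ) : ℂ) := by
        have := Complex.mul_conj (ev (s j) z * ev C.J z)
        rw [Complex.normSq_eq_norm_sq] at this
        exact this
      rw [h3, up_eq C hz, norm_mul, mul_pow]
      push_cast
      ring
    rw [h2, integral_complex_ofReal] at h1
    exact_mod_cast h1
  rw [l1] at key
  rw [key, ENNReal.toReal_mul, ENNReal.toReal_ofReal (by
    have := Real.Gamma_pos_of_pos (by positivity : 0 < 2 * (D : ℝ) + C.m)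
    positivity)] at l2
  rw [int_nu' C hW mg (fun z _ => div_nonneg (by positivity) (pow_nonneg (up_pos C hC z).le _))]
  exact l2

theorem E'_eq (hSCA : StSCA) (hVOL : StVOL) (C : Cone) (hC : Good C) (D : ℕ) {N : ℕ}
    (s : Fin N → MvPolynomial (Fin C.m) ℂ) (lam : Fin N → ℕ) (hs : ONB C D s)
    (hpos : ∀ z ∈ C.U, 0 < SS s z) (K : ℝ) (hK : 0 < K) (a : ℝ) :
    (∫ z in W1 C, (a * (QQ s lam z / SS s z)) * (K * (SS s z / up C z ^ (2 * D))) ∂C.nu) /
      (∫ z in W1 C, K * (SS s z / up C z ^ (2 * D)) ∂C.nu) = a * ((∑ j, (lam j : ℝ)) / N) := by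
  have hm : (0 : ℝ) < C.m := by
    have := hC.hn
    have h2 := hC.hm
    exact_mod_cast (by omega : 0 < C.m)
  have hW := meas_W1 C hC
  have hG : 0 < C.m * Real.Gamma (2 * (D : ℝ) + C.m) := by
    have := Real.Gamma_pos_of_pos (by positivity : 0 < 2 * (D : ℝ) + C.m)
    positivity
  set I : ℝ := (C.m * Real.Gamma (2 * (D : ℝ) + C.m))⁻¹ with hI
  have hI0 : 0 < I := inv_pos.mpr hG
  have hIj : ∀ j, ∫ z in W1 C, ‖ev (s j) z‖ ^ 2 / up C z ^ (2 * D) ∂C.nu = I := fun j =>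
    eq_inv_of_mul_eq_one_right (I_eq hSCA hVOL C hC D s hs j)
  have hint : ∀ j, IntegrableOn (fun z => ‖ev (s j) z‖ ^ 2 / up C z ^ (2 * D)) (W1 C) C.nu := by
    intro j
    by_contra hne
    have := hIj j
    rw [integral_undef hne] at this
    exact hI0.ne this
  have e1 : ∫ z in W1 C, K * (SS s z / up C z ^ (2 * D)) ∂C.nu = K * (N * I) := by
    have : ∀ z, K * (SS s z / up C z ^ (2 * D)) =
        K * ∑ j, ‖ev (s j) z‖ ^ 2 / up C z ^ (2 * D) := fun z => by
      rw [SS, Finset.sum_div]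
    simp only [this]
    rw [integral_const_mul, integral_finsetSum _ fun j _ => hint j]
    simp only [hIj, Finset.sum_const, Finset.card_univ, Fintype.card_fin, nsmul_eq_mul]
  have e2 : ∫ z in W1 C, (a * (QQ s lam z / SS s z)) * (K * (SS s z / up C z ^ (2 * D))) ∂C.nu =
      a * (K * ((∑ j, (lam j : ℝ)) * I)) := by
    have : ∫ z in W1 C, (a * (QQ s lam z / SS s z)) * (K * (SS s z / up C z ^ (2 * D))) ∂C.nu =
        ∫ z in W1 C, a * (K * ∑ j, (lam j : ℝ) * (‖ev (s j) z‖ ^ 2 / up C z ^ (2 * D))) ∂C.nu := by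
      refine setIntegral_congr_fun hW fun z hz => ?_
      have h1 := hpos z hz.1
      have h2 := up_pos C hC z
      have h3 : ∑ j, (lam j : ℝ) * (‖ev (s j) z‖ ^ 2 / up C z ^ (2 * D)) =
          QQ s lam z / up C z ^ (2 * D) := by
        rw [QQ, Finset.sum_div]
        exact Finset.sum_congr rfl fun j _ => by ring
      rw [h3]
      field_simp
    rw [this, integral_const_mul, integral_const_mul,
      integral_finsetSum _ fun j _ => (hint j).const_mul _]
    congr 2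
    rw [Finset.sum_mul]
    refine Finset.sum_congr rfl fun j _ => ?_
    rw [integral_const_mul, hIj]
  rw [e1, e2, mul_div_assoc]
  congr 1
  rw [mul_div_mul_left _ _ hK.ne', mul_div_mul_right _ _ hI0.ne']

/-! ### The theorem -/

theorem hDER (hBER : StBER) (hBLB : StBLB) (hRAD : StRAD) (hSCA : StSCA) (hVOL : StVOL)
    (hDIF : StDIF) : StDER := by
  intro C hC Lam ε hε
  have hn := hC.hn
  have h2n := hC.hm
  have hm : (0 : ℝ) < C.m := by exact_mod_cast (by omega : 0 < C.m)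
  have hW := meas_W1 C hC
  -- constants
  obtain ⟨c, hc0, hc⟩ := hBLB C hC
  set c' : ℝ := min c 1 with hc'
  have hc'0 : 0 < c' := lt_min hc0 one_pos
  have hc'1 : c' ≤ 1 := min_le_right _ _
  set C₁ : ℝ := c' ^ (-(C.m / 2 : ℝ)) with hC₁
  have hC₁1 : 1 ≤ C₁ := Real.one_le_rpow_of_pos_of_le_one_of_nonpos hc'0 hc'1 (by
    have : (0 : ℝ) ≤ C.m / 2 := by positivity
    linarith)
  set V : ℝ := C.rd * (Real.pi / 2) ^ C.m / C.m.factorial with hV
  have hV0 : 0 < V := by
    have h1 : (0 : ℝ) < C.rd := by exact_mod_cast hC.rd0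
    have h2 : (0 : ℝ) < C.m.factorial := by exact_mod_cast C.m.factorial_pos
    have := Real.pi_pos
    positivity
  set M : ℝ := C.m * |Lam| / 2 with hM
  have hM0 : 0 ≤ M := by positivity
  set δ : ℝ := min (1 / (4 * C₁)) (ε / (4 * M * (2 * C₁ + 1) + 1)) with hδ
  have hden : 0 < 4 * M * (2 * C₁ + 1) + 1 := by positivity
  have hδ0 : 0 < δ := lt_min (by positivity) (div_pos hε hden)
  have hδ1 : 2 * C₁ * δ ≤ 1 / 2 := by
    have : δ ≤ 1 / (4 * C₁) := min_le_left _ _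
    calc 2 * C₁ * δ ≤ 2 * C₁ * (1 / (4 * C₁)) := by gcongr
      _ = 1 / 2 := by field_simp; norm_num
  have hδ2 : δ ≤ 1 / 2 := by nlinarith
  have hδ3 : 4 * M * (2 * C₁ * δ) + 4 * M * δ ≤ ε := by
    have h1 : δ ≤ ε / (4 * M * (2 * C₁ + 1) + 1) := min_le_right _ _
    rw [le_div_iff₀ hden] at h1
    nlinarith
  filter_upwards [hBER C hC (δ * V) (by positivity), eventually_ge_atTop C.m] with D hBD hDm
  intro N s lam hs hlam
  have hD : 0 < D := by omega
  have hDr : (0 : ℝ) < D := by exact_mod_cast hD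
  set a : ℝ := C.m / (2 * (D : ℝ)) with ha
  have ha0 : 0 < a := by positivity
  have ha1 : a ≤ 1 := by
    rw [ha, div_le_one (by positivity)]
    have : (C.m : ℝ) ≤ D := by exact_mod_cast hDm
    linarith
  set K : ℝ := (2 * D + C.m - 1).factorial * (Real.pi / 2) ^ C.m / (D : ℝ) ^ (C.m - 1) with hK
  have hK0 : 0 < K := by
    have h2 : (0 : ℝ) < (2 * D + C.m - 1).factorial := by
      exact_mod_cast (2 * D + C.m - 1).factorial_pos
    have := Real.pi_pos
    positivity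
  have hberg : ∀ z ∈ C.U, C.berg D s z = K * (SS s z / up C z ^ (2 * D)) := fun z hz => by
    rw [up_eq C hz]; rfl
  have hlow : ∀ z ∈ C.U, c' ^ D ≤ K * (SS s z / up C z ^ (2 * D)) := fun z hz => by
    rw [← hberg z hz]
    exact (pow_le_pow_left₀ hc'0.le (min_le_left _ _) D).trans (hc D N hD s hs z hz)
  have hpos : ∀ z ∈ C.U, 0 < SS s z := fun z hz => by
    have h1 : 0 < K * (SS s z / up C z ^ (2 * D)) := lt_of_lt_of_le (by positivity) (hlow z hz)
    have h2 := up_pos C hC z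
    rcases (SS_nonneg s z).eq_or_lt with h3 | h3
    · rw [← h3] at h1; simp at h1
    · exact h3
  -- the measure
  have hν : C.nu (W1 C) = ENNReal.ofReal V := hVOL C hC
  have : IsFiniteMeasure (C.nu.restrict (W1 C)) := ⟨by
    rw [Measure.restrict_apply_univ, hν]; exact ENNReal.ofReal_lt_top⟩
  have hμ : (C.nu.restrict (W1 C) Set.univ).toReal = V := by
    rw [Measure.restrict_apply_univ, hν, ENNReal.toReal_ofReal hV0.le]
  have mβ : Measurable (fun z => K * (SS s z / up C z ^ (2 * D))) :=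
    ((meas_SS s).div ((meas_up C hC).pow_const _)).const_mul K
  have mβa : Measurable (fun z => (K * (SS s z / up C z ^ (2 * D))) ^ (-a)) := mβ.pow_const _
  have mh : Measurable (fun z => a * (QQ s lam z / SS s z)) := (meas_g s lam).const_mul a
  have hM1 : ∀ z, a * (QQ s lam z / SS s z) ≤ M := fun z => by
    have h1 : QQ s lam z / SS s z ≤ |Lam| * D := g_le s lam _ (by positivity) (fun j =>
      (hlam j).trans (mul_le_mul_of_nonneg_right (le_abs_self _) hDr.le)) z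
    calc a * (QQ s lam z / SS s z) ≤ a * (|Lam| * D) := by gcongr
      _ = M := by rw [ha, hM]; field_simp
  have h01 : ∀ z, 0 ≤ a * (QQ s lam z / SS s z) := fun z => mul_nonneg ha0.le (g_nonneg s lam z)
  have hint : ∫⁻ z in W1 C, ENNReal.ofReal |K * (SS s z / up C z ^ (2 * D)) - 1| ∂C.nu ≤
      ENNReal.ofReal (δ * V) := by
    refine le_trans (le_of_eq ?_) (hBD N s hs)
    refine setLIntegral_congr_fun hW fun z hz => ?_
    rw [hberg z hz.1]
  have hint' : ∫⁻ z in W1 C, ENNReal.ofReal |(K * (SS s z / up C z ^ (2 * D))) ^ (-a) - 1| ∂C.nu ≤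
      ENNReal.ofReal (2 * C₁ * δ * V) := by
    calc ∫⁻ z in W1 C, ENNReal.ofReal |(K * (SS s z / up C z ^ (2 * D))) ^ (-a) - 1| ∂C.nu
        ≤ ∫⁻ z in W1 C, ENNReal.ofReal (2 * C₁) *
            ENNReal.ofReal |K * (SS s z / up C z ^ (2 * D)) - 1| ∂C.nu := by
          refine setLIntegral_mono_ae' hW (Eventually.of_forall fun z hz => ?_)
          rw [← ENNReal.ofReal_mul (by positivity)]
          refine ENNReal.ofReal_le_ofReal ?_
          have h1 := hlow z hz.1
          have h2 : 0 < K * (SS s z / up C z ^ (2 * D)) := lt_of_lt_of_le (by positivity) h1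
          refine el1 a _ C₁ ha0 ha1 h2 hC₁1 ?_
          have h3 : (K * (SS s z / up C z ^ (2 * D))) ^ (-a) ≤ (c' ^ D) ^ (-a) :=
            Real.rpow_le_rpow_of_nonpos (by positivity) h1 (by linarith)
          refine h3.trans (le_of_eq ?_)
          rw [← Real.rpow_natCast c' D, ← Real.rpow_mul hc'0.le, hC₁]
          congr 1
          rw [ha]; field_simp
      _ = ENNReal.ofReal (2 * C₁) *
          ∫⁻ z in W1 C, ENNReal.ofReal |K * (SS s z / up C z ^ (2 * D)) - 1| ∂C.nu := by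
          rw [lintegral_const_mul]
          exact (mβ.sub measurable_const).abs.ennreal_ofReal
      _ ≤ ENNReal.ofReal (2 * C₁) * ENNReal.ofReal (δ * V) := by gcongr
      _ = ENNReal.ofReal (2 * C₁ * δ * V) := by
          rw [← ENNReal.ofReal_mul (by positivity)]
          congr 1
          ring
  have q1 := quot_est (C.nu.restrict (W1 C)) V hV0 hμ (fun z => a * (QQ s lam z / SS s z))
    (fun z => K * (SS s z / up C z ^ (2 * D))) mh.aestronglyMeasurable M h01 hM1
    mβ.aestronglyMeasurable δ hδ0.le hδ2 hint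
  have q2 := quot_est (C.nu.restrict (W1 C)) V hV0 hμ (fun z => a * (QQ s lam z / SS s z))
    (fun z => (K * (SS s z / up C z ^ (2 * D))) ^ (-a)) mh.aestronglyMeasurable M h01 hM1
    mβa.aestronglyMeasurable (2 * C₁ * δ) (by positivity) hδ1 hint'
  have e1 := E_eq hSCA hRAD hDIF C hC D hD s lam hs hpos K hK0
  have e2 := E'_eq hSCA hVOL C hC D s lam hs hpos K hK0 a
  rw [← ha] at e1
  rw [e1]
  have q1' := q1.2.2
  rw [e2] at q1'
  have q2' := q2.2.2
  set E₁ := (∫ z in W1 C, (a * (QQ s lam z / SS s z)) *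
      (K * (SS s z / up C z ^ (2 * D))) ^ (-a) ∂C.nu) /
      (∫ z in W1 C, (K * (SS s z / up C z ^ (2 * D))) ^ (-a) ∂C.nu) with hE₁
  set H := (∫ z in W1 C, a * (QQ s lam z / SS s z) ∂C.nu) / V with hH
  rw [abs_le] at q1' q2' ⊢
  constructor <;> linarith [q1'.1, q1'.2, q2'.1, q2'.2]

end Pool.Agent.Helper61.KP
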