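import Pool.Agent.Helper68.KP.StS

/-!
# Project KP, module DIR (direction of steepest descent)
-/

set_option autoImplicit false

namespace Pool.Agent.Helper61.KP

open Pool.Agent.Helper52.KP Pool.Agent.Helper68.KP Filter Topology Matrix

/-! ### The real trace product -/

/-- real trace product -/
noncomputable def tp {N : ℕ} (X Y : Matrix (Fin N) (Fin N) ℂ) : ℝ := (X * Y).trace.re

section tp

variable {N : ℕ} (X Y : Matrix (Fin N) (Fin N) ℂ)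

theorem hs_nonneg : 0 ≤ hs X := by unfold hs; positivity

theorem hs_eq_zero (h : hs X = 0) : X = 0 := by
  unfold hs at h
  ext i j
  have h1 := (Finset.sum_eq_zero_iff_of_nonneg (fun i _ => by positivity)).mp h i
    (Finset.mem_univ i)
  have h2 := (Finset.sum_eq_zero_iff_of_nonneg (fun j _ => by positivity)).mp h1 j
    (Finset.mem_univ j)
  simpa using h2

theorem hs_smul (c : ℂ) : hs (c • X) = ‖c‖ ^ 2 * hs X := by
  unfold hs
  rw [Finset.mul_sum]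
  refine Finset.sum_congr rfl fun i _ => ?_
  rw [Finset.mul_sum]
  refine Finset.sum_congr rfl fun j _ => ?_
  rw [Matrix.smul_apply, smul_eq_mul, norm_mul, mul_pow]

theorem hs_neg : hs (-X) = hs X := by
  have := hs_smul X (-1)
  simpa using this

theorem tp_self (hX : X.IsHermitian) : tp X X = hs X := by
  unfold tp hs
  rw [Matrix.trace]
  simp only [Matrix.diag_apply, Matrix.mul_apply, Complex.re_sum]
  refine Finset.sum_congr rfl fun i _ => Finset.sum_congr rfl fun j _ => ?_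
  rw [← hX.apply j i]
  have := Complex.mul_conj (X i j)
  rw [Complex.normSq_eq_norm_sq] at this
  rw [show star (X i j) = (starRingEnd ℂ) (X i j) from rfl, this, Complex.ofReal_re]

theorem tp_comm : tp X Y = tp Y X := by
  unfold tp
  rw [Matrix.trace_mul_comm]

theorem tp_cs : |tp X Y| ≤ Real.sqrt (hs X) * Real.sqrt (hs Y) := by
  have h1 : |tp X Y| ≤ ∑ p : Fin N × Fin N, ‖X p.1 p.2‖ * ‖Y p.2 p.1‖ := by
    unfold tp
    rw [Matrix.trace]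
    simp only [Matrix.diag_apply, Matrix.mul_apply]
    refine (Complex.abs_re_le_norm _).trans ?_
    rw [← Finset.univ_product_univ, Finset.sum_product]
    refine (norm_sum_le _ _).trans (Finset.sum_le_sum fun i _ => ?_)
    refine (norm_sum_le _ _).trans (Finset.sum_le_sum fun j _ => ?_)
    rw [norm_mul]
  have h2 := Finset.sum_mul_sq_le_sq_mul_sq (Finset.univ : Finset (Fin N × Fin N))
    (fun p => ‖X p.1 p.2‖) (fun p => ‖Y p.2 p.1‖)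
  have e1 : ∑ p : Fin N × Fin N, ‖X p.1 p.2‖ ^ 2 = hs X := by
    unfold hs
    rw [← Finset.univ_product_univ, Finset.sum_product]
  have e2 : ∑ p : Fin N × Fin N, ‖Y p.2 p.1‖ ^ 2 = hs Y := by
    unfold hs
    rw [← Finset.univ_product_univ, Finset.sum_product_right]
  rw [e1, e2] at h2
  refine h1.trans ?_
  rw [← Real.sqrt_mul (hs_nonneg X)]
  exact Real.le_sqrt_of_sq_le h2

theorem tp_smul (c : ℝ) : tp ((c : ℂ) • X) Y = c * tp X Y := by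
  unfold tp
  rw [Matrix.smul_mul, Matrix.trace_smul, smul_eq_mul, Complex.re_ofReal_mul]

theorem tp_neg : tp (-X) Y = - tp X Y := by
  unfold tp
  rw [Matrix.neg_mul, Matrix.trace_neg, Complex.neg_re]

theorem hs_sub (hX : X.IsHermitian) (hY : Y.IsHermitian) :
    hs (X - Y) = hs X + hs Y - 2 * tp X Y := by
  rw [← tp_self _ (hX.sub hY), ← tp_self _ hX, ← tp_self _ hY, two_mul]
  nth_rewrite 2 [tp_comm X Y]
  unfold tp
  rw [Matrix.sub_mul, Matrix.mul_sub, Matrix.mul_sub]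
  simp only [Matrix.trace_sub, Complex.sub_re]
  ring

end tp

/-! ### Exponentials -/

set_option backward.isDefEq.respectTransparency false in
theorem continuous_mexp (N : ℕ) :
    Continuous (fun A : Matrix (Fin N) (Fin N) ℂ => NormedSpace.exp A) :=
  open scoped Matrix.Norms.Operator in NormedSpace.exp_continuous

section ex

variable {N : ℕ} (A : Matrix (Fin N) (Fin N) ℂ)

/-- the one-parameter group -/
noncomputable def ex (t : ℝ) : Matrix (Fin N) (Fin N) ℂ := NormedSpace.exp ((t : ℂ) • A)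

theorem ex_add (s t : ℝ) : ex A (s + t) = ex A s * ex A t := by
  unfold ex
  rw [Complex.ofReal_add, add_smul]
  exact Matrix.exp_add_of_commute _ _ (((Commute.refl A).smul_left _).smul_right _)

theorem ex_zero : ex A 0 = 1 := by
  unfold ex
  rw [Complex.ofReal_zero, zero_smul, NormedSpace.exp_zero]

theorem ex_unit (t : ℝ) : IsUnit (ex A t) := Matrix.isUnit_exp _

theorem herm_smul {A : Matrix (Fin N) (Fin N) ℂ} (hA : A.IsHermitian) (t : ℝ) :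
    ((t : ℂ) • A).IsHermitian := by
  unfold Matrix.IsHermitian
  rw [Matrix.conjTranspose_smul, hA.eq]
  simp

theorem ex_conj {A : Matrix (Fin N) (Fin N) ℂ} (hA : A.IsHermitian) (t : ℝ) :
    (ex A t)ᴴ = ex A t := by
  unfold ex
  rw [← Matrix.exp_conjTranspose, (herm_smul hA t).eq]

end ex

/-! ### One step -/

theorem step (hCOC : StCOC) (hHSL : StHSL) (N : ℕ) (w : WF N)
    (𝒮 : Submodule ℝ (Matrix (Fin N) (Fin N) ℂ)) (𝒢 : Set (Matrix (Fin N) (Fin N) ℂ)) (ε : ℝ)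
    (hw : w.Ok) (hS : ∀ B ∈ 𝒮, B.IsHermitian)
    (hexp : ∀ B ∈ 𝒮, ∀ σ ∈ 𝒢, NormedSpace.exp B * σ ∈ 𝒢) (hu : ∀ σ ∈ 𝒢, IsUnit σ)
    (hε : 0 < ε) (hε1 : ε ≤ 1 / 10) (hL : 0 < hs (w.L 1))
    (hone : ∀ σ ∈ 𝒢, ∃ W ∈ 𝒮, hs (W - w.L σ) ≤ ε ^ 2 * hs (w.L 1)) (h : ℝ) (h0 : 0 < h)
    (h1 : h ≤ 1) (σ : Matrix (Fin N) (Fin N) ℂ) (hσ : σ ∈ 𝒢) :
    ∃ σ' ∈ 𝒢, w.f (σ'ᴴ * σ') ≤ w.f (σᴴ * σ) - h * (1 - ε) * Real.sqrt (hs (w.L 1)) +
        (∑ i, w.c i) * h ^ 2 ∧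
      ∀ w' : WF N, w'.Ok → hs (w'.L 1) = 1 → ∑ i, w'.c i ≤ 2 →
        w'.f (σ'ᴴ * σ') ≤ w'.f (σᴴ * σ) + h + 2 * h ^ 2 := by
  set L := Real.sqrt (hs (w.L 1)) with hLdef
  have hL0 : 0 < L := Real.sqrt_pos.mpr hL
  have hL2 : L ^ 2 = hs (w.L 1) := Real.sq_sqrt hL.le
  obtain ⟨hΛ, hΛ1, -⟩ := hHSL N w σ hw (hu σ hσ)
  obtain ⟨W, hW, hWL⟩ := hone σ hσ
  have hWh := hS W hW
  have key := hs_sub W (w.L σ) hWh hΛ
  rw [key, hΛ1, ← hL2] at hWL
  set x := Real.sqrt (hs W) with hx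
  have hx0 : 0 ≤ x := Real.sqrt_nonneg _
  have hx2 : x ^ 2 = hs W := Real.sq_sqrt (hs_nonneg W)
  have hcs : tp W (w.L σ) ≤ x * L := by
    have := (le_abs_self _).trans (tp_cs W (w.L σ))
    rwa [hΛ1] at this
  rw [← hx2] at hWL
  have hx1 : (1 - ε) * L ≤ x := by
    have h2 : (x - L) ^ 2 ≤ (ε * L) ^ 2 := by nlinarith
    have h3 := abs_le_of_sq_le_sq h2 (by positivity)
    have := (abs_le.mp h3).1
    nlinarith
  have hxp : 0 < x := lt_of_lt_of_le (mul_pos (by linarith) hL0) hx1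
  set B : Matrix (Fin N) (Fin N) ℂ := ((x⁻¹ : ℝ) : ℂ) • W with hB
  have hBS : B ∈ 𝒮 := by
    have := 𝒮.smul_mem (x⁻¹ : ℝ) hW
    rwa [← Complex.coe_smul] at this
  have hBh := hS B hBS
  have hB1 : hs B = 1 := by
    rw [hB, hs_smul, ← hx2, Complex.norm_real, Real.norm_of_nonneg (by positivity)]
    field_simp
  have hBL : (1 - ε) * L ≤ tp B (w.L σ) := by
    rw [hB, tp_smul, inv_mul_eq_div, le_div_iff₀ hxp]
    nlinarith [sq_nonneg (x - (1 - ε) * L), mul_pos hε (mul_pos hL0 hL0)]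
  -- the new point
  have hcoe : ∀ t : ℝ, ((t : ℂ) • B) ∈ 𝒮 := fun t => by
    rw [Complex.coe_smul]; exact 𝒮.smul_mem t hBS
  refine ⟨ex B (-(h / 2)) * σ, hexp _ (hcoe _) σ hσ, ?_⟩
  have e1 : (ex B (-(h / 2)) * σ)ᴴ * (ex B (-(h / 2)) * σ) =
      σᴴ * NormedSpace.exp (((-h : ℝ) : ℂ) • B) * σ := by
    rw [Matrix.conjTranspose_mul, ex_conj hBh]
    have : NormedSpace.exp (((-h : ℝ) : ℂ) • B) = ex B (-(h / 2)) * ex B (-(h / 2)) := by
      rw [← ex_add]; unfold ex; congr 3; ring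
    rw [this]
    simp only [Matrix.mul_assoc]
  have hAh : (((-h : ℝ) : ℂ) • B).IsHermitian := herm_smul hBh _
  have hA1 : hs (((-h : ℝ) : ℂ) • B) = h ^ 2 := by
    rw [hs_smul, hB1, Complex.norm_real, Real.norm_eq_abs, sq_abs]; ring
  have hA2 : hs (((-h : ℝ) : ℂ) • B) ≤ 1 := by rw [hA1]; nlinarith
  rw [e1]
  constructor
  · have h2 := (hCOC N w σ _ hw (hu σ hσ) hAh).2.2 hA2
    have h3 : ((((-h : ℝ) : ℂ) • B) * w.L σ).trace.re = -h * tp B (w.L σ) := tp_smul B _ (-h)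
    rw [h3, hA1] at h2
    nlinarith [mul_le_mul_of_nonneg_left hBL h0.le]
  · intro w' hw' hw1 hw2
    have h2 := (hCOC N w' σ _ hw' (hu σ hσ) hAh).2.2 hA2
    have h3 : ((((-h : ℝ) : ℂ) • B) * w'.L σ).trace.re = -h * tp B (w'.L σ) := tp_smul B _ (-h)
    rw [h3, hA1] at h2
    obtain ⟨-, h4, -⟩ := hHSL N w' σ hw' (hu σ hσ)
    have h5 := tp_cs B (w'.L σ)
    rw [hB1, h4, hw1, Real.sqrt_one, mul_one] at h5
    have h6 := (abs_le.mp h5).1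
    nlinarith [mul_le_mul_of_nonneg_left h6 h0.le, sq_nonneg h]

theorem steps (hCOC : StCOC) (hHSL : StHSL) (N : ℕ) (w : WF N)
    (𝒮 : Submodule ℝ (Matrix (Fin N) (Fin N) ℂ)) (𝒢 : Set (Matrix (Fin N) (Fin N) ℂ)) (ε : ℝ)
    (hw : w.Ok) (hS : ∀ B ∈ 𝒮, B.IsHermitian) (h1G : (1 : Matrix (Fin N) (Fin N) ℂ) ∈ 𝒢)
    (hexp : ∀ B ∈ 𝒮, ∀ σ ∈ 𝒢, NormedSpace.exp B * σ ∈ 𝒢) (hu : ∀ σ ∈ 𝒢, IsUnit σ)
    (hε : 0 < ε) (hε1 : ε ≤ 1 / 10) (hL : 0 < hs (w.L 1))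
    (hone : ∀ σ ∈ 𝒢, ∃ W ∈ 𝒮, hs (W - w.L σ) ≤ ε ^ 2 * hs (w.L 1)) (h : ℝ) (h0 : 0 < h)
    (h1 : h ≤ 1) (n : ℕ) :
    ∃ σ ∈ 𝒢, w.f (σᴴ * σ) ≤ n * (- h * (1 - ε) * Real.sqrt (hs (w.L 1)) +
        (∑ i, w.c i) * h ^ 2) ∧
      ∀ w' : WF N, w'.Ok → hs (w'.L 1) = 1 → ∑ i, w'.c i ≤ 2 →
        w'.f (σᴴ * σ) ≤ n * (h + 2 * h ^ 2) := by
  induction n with
  | zero =>
    refine ⟨1, h1G, ?_, ?_⟩
    · rw [Matrix.conjTranspose_one, one_mul, (hCOC N w 1 0 hw isUnit_one (by simp)).1]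
      simp
    · intro w' hw' _ _
      rw [Matrix.conjTranspose_one, one_mul, (hCOC N w' 1 0 hw' isUnit_one (by simp)).1]
      simp
  | succ n ih =>
    obtain ⟨σ, hσ, ha, hb⟩ := ih
    obtain ⟨σ', hσ', ha', hb'⟩ := step hCOC hHSL N w 𝒮 𝒢 ε hw hS hexp hu hε hε1 hL hone h h0 h1
      σ hσ
    refine ⟨σ', hσ', ?_, ?_⟩
    · push_cast
      linarith
    · intro w' hw' hw1 hw2
      have h2 := hb w' hw' hw1 hw2
      have h3 := hb' w' hw' hw1 hw2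
      push_cast
      linarith

/-- A far point in the direction of descent. -/
theorem far (hCOC : StCOC) (hHSL : StHSL) (hFLG : StFLG) (N : ℕ) (w : WF N)
    (𝒮 : Submodule ℝ (Matrix (Fin N) (Fin N) ℂ)) (𝒢 : Set (Matrix (Fin N) (Fin N) ℂ)) (ε : ℝ)
    (hw : w.Ok) (hS : ∀ B ∈ 𝒮, B.IsHermitian) (h1G : (1 : Matrix (Fin N) (Fin N) ℂ) ∈ 𝒢)
    (hexp : ∀ B ∈ 𝒮, ∀ σ ∈ 𝒢, NormedSpace.exp B * σ ∈ 𝒢)
    (hlog : ∀ σ ∈ 𝒢, IsUnit σ ∧ ∃ ξ ∈ 𝒮, NormedSpace.exp (-ξ) = σᴴ * σ)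
    (hε : 0 < ε) (hε1 : ε ≤ 1 / 10) (hL : 0 < hs (w.L 1))
    (hone : ∀ σ ∈ 𝒢, ∃ W ∈ 𝒮, hs (W - w.L σ) ≤ ε ^ 2 * hs (w.L 1)) (T : ℝ) (hT : 0 < T) :
    ∃ ξ ∈ 𝒮, hs ξ = 1 ∧ ∃ R : ℝ, T * (1 - 2 * ε) ≤ R ∧ R ≤ T * (1 + ε) ∧
      w.f (ex ξ (-R)) ≤ -(T * (1 - 2 * ε) * Real.sqrt (hs (w.L 1))) := by
  have hu : ∀ σ ∈ 𝒢, IsUnit σ := fun σ hσ => (hlog σ hσ).1
  set L := Real.sqrt (hs (w.L 1)) with hLdef
  have hL0 : 0 < L := Real.sqrt_pos.mpr hL
  set m : ℝ := ∑ i, w.c i with hm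
  have hm0 : 0 ≤ m := Finset.sum_nonneg fun i _ => hw.pos i
  -- the number of steps
  obtain ⟨n, hn⟩ := exists_nat_gt (T * (1 + 2 / ε + m / (ε * L)))
  have hn0 : 0 < T * (1 + 2 / ε + m / (ε * L)) := by positivity
  have hnp : (0 : ℝ) < n := hn0.trans hn
  set h : ℝ := T / n with hh
  have hh0 : 0 < h := by positivity
  have hnh : n * h = T := by rw [hh]; field_simp
  have hc : h * (1 + 2 / ε + m / (ε * L)) ≤ 1 := by
    rw [hh, div_mul_eq_mul_div, div_le_one hnp]; exact hn.le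
  have hp1 : 0 ≤ 2 / ε := by positivity
  have hp2 : 0 ≤ m / (ε * L) := by positivity
  have hh1 : h ≤ 1 := by nlinarith
  have hh2 : 2 * h ≤ ε := by
    have : h * (2 / ε) ≤ 1 := by nlinarith
    rw [mul_div_assoc', div_le_one hε] at this
    linarith
  have hh3 : m * h ≤ ε * L := by
    have : h * (m / (ε * L)) ≤ 1 := by nlinarith
    rw [mul_div_assoc', div_le_one (by positivity)] at this
    linarith
  obtain ⟨σ, hσ, ha, hb⟩ := steps hCOC hHSL N w 𝒮 𝒢 ε hw hS h1G hexp hu hε hε1 hL hone h hh0 hh1 n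
  obtain ⟨-, ξ, hξ, hξσ⟩ := hlog σ hσ
  have ha' : w.f (σᴴ * σ) ≤ -(T * (1 - 2 * ε) * L) := by
    refine ha.trans ?_
    have : (n : ℝ) * (-h * (1 - ε) * L + m * h ^ 2) = -(T * (1 - ε) * L) + T * (m * h) := by
      rw [← hnh]; ring
    rw [← hLdef, this]
    nlinarith [mul_le_mul_of_nonneg_left hh3 hT.le]
  have hb' : ∀ w' : WF N, w'.Ok → hs (w'.L 1) = 1 → ∑ i, w'.c i ≤ 2 →
      w'.f (σᴴ * σ) ≤ T * (1 + ε) := by
    intro w' k1 k2 k3
    refine (hb w' k1 k2 k3).trans ?_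
    have : (n : ℝ) * (h + 2 * h ^ 2) = T + T * (2 * h) := by
      rw [← hnh]; ring
    rw [this]
    nlinarith [mul_le_mul_of_nonneg_left hh2 hT.le]
  have hξh := hS ξ hξ
  set R := Real.sqrt (hs ξ) with hR
  have hR2 : R ^ 2 = hs ξ := Real.sq_sqrt (hs_nonneg ξ)
  have hRp : 0 < R := by
    refine Real.sqrt_pos.mpr (lt_of_le_of_ne (hs_nonneg ξ) fun h0 => ?_)
    have h1 := hs_eq_zero ξ h0.symm
    rw [h1, neg_zero, NormedSpace.exp_zero] at hξσ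
    rw [← hξσ, (hCOC N w 1 0 hw isUnit_one (by simp)).1] at ha'
    have : 0 < T * (1 - 2 * ε) * L := mul_pos (mul_pos hT (by linarith)) hL0
    linarith
  set ξ' : Matrix (Fin N) (Fin N) ℂ := ((R⁻¹ : ℝ) : ℂ) • ξ with hξ'
  have hξ'S : ξ' ∈ 𝒮 := by
    rw [hξ', Complex.coe_smul]; exact 𝒮.smul_mem _ hξ
  have hξ'1 : hs ξ' = 1 := by
    rw [hξ', hs_smul, ← hR2, Complex.norm_real, Real.norm_of_nonneg (by positivity)]
    field_simp
  have hex : ex ξ' (-R) = σᴴ * σ := by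
    rw [← hξσ]
    unfold ex
    congr 1
    rw [hξ', smul_smul, ← Complex.ofReal_mul, neg_mul, mul_inv_cancel₀ hRp.ne']
    simp
  refine ⟨ξ', hξ'S, hξ'1, R, ?_, ?_, ?_⟩
  · have h1 := (hCOC N w 1 (-ξ) hw isUnit_one hξh.neg).2.1
    rw [Matrix.conjTranspose_one, one_mul, one_mul, mul_one, hξσ,
      (hCOC N w 1 0 hw isUnit_one (by simp)).1, zero_add] at h1
    have h2 : (-ξ * w.L 1).trace.re = - tp ξ (w.L 1) := tp_neg ξ _
    have h3 := (abs_le.mp (tp_cs ξ (w.L 1))).2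
    rw [← hR, ← hLdef] at h3
    rw [h2] at h1
    have h4 : T * (1 - 2 * ε) * L ≤ R * L := by linarith
    exact le_of_mul_le_mul_right h4 hL0
  · obtain ⟨w', k1, k2, k3, k4⟩ := hFLG N (-ξ') (hS _ hξ'S).neg
    have h5 : hs (w'.L 1) = 1 := by rw [k2, hs_neg, hξ'1]
    have h6 : ∑ i, w'.c i ≤ 2 := by rw [hs_neg, hξ'1, Real.sqrt_one] at k3; linarith
    have h7 := k4 R
    rw [hs_neg, hξ'1, mul_one] at h7
    have h8 : NormedSpace.exp ((R : ℂ) • -ξ') = ex ξ' (-R) := by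
      unfold ex; congr 1; rw [Complex.ofReal_neg, neg_smul, smul_neg]
    rw [h8, hex] at h7
    rw [← h7]
    exact hb' w' k1 h5 h6
  · rw [hex]; exact ha'

/-- Convexity along the ray. -/
theorem ray (hCOC : StCOC) (N : ℕ) (w : WF N) (hw : w.Ok) (ξ : Matrix (Fin N) (Fin N) ℂ)
    (hξ : ξ.IsHermitian) (s R : ℝ) (hs0 : 0 ≤ s) (hsR : s ≤ R) :
    R * w.f (ex ξ (-s)) ≤ s * w.f (ex ξ (-R)) := by
  have c1 := (hCOC N w (ex ξ (-(s / 2))) (((-(R - s) : ℝ) : ℂ) • ξ) hw (ex_unit _ _)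
    (herm_smul hξ _)).2.1
  have c2 := (hCOC N w (ex ξ (-(s / 2))) (((s : ℝ) : ℂ) • ξ) hw (ex_unit _ _)
    (herm_smul hξ _)).2.1
  rw [ex_conj hξ] at c1 c2
  have e0 : ex ξ (-(s / 2)) * ex ξ (-(s / 2)) = ex ξ (-s) := by
    rw [← ex_add]; congr 1; ring
  have e1 : ex ξ (-(s / 2)) * NormedSpace.exp (((-(R - s) : ℝ) : ℂ) • ξ) * ex ξ (-(s / 2)) =
      ex ξ (-R) := by
    have : NormedSpace.exp (((-(R - s) : ℝ) : ℂ) • ξ) = ex ξ (-(R - s)) := rfl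
    rw [this, ← ex_add, ← ex_add]; congr 1; ring
  have e2 : ex ξ (-(s / 2)) * NormedSpace.exp (((s : ℝ) : ℂ) • ξ) * ex ξ (-(s / 2)) = 1 := by
    have : NormedSpace.exp (((s : ℝ) : ℂ) • ξ) = ex ξ s := rfl
    rw [this, ← ex_add, ← ex_add, ← ex_zero ξ]; congr 1; ring
  rw [e0, e1] at c1
  rw [e0, e2, (hCOC N w 1 0 hw isUnit_one (by simp)).1] at c2
  have t1 : ((((-(R - s) : ℝ) : ℂ) • ξ) * w.L (ex ξ (-(s / 2)))).trace.re =
      -(R - s) * tp ξ (w.L (ex ξ (-(s / 2)))) := tp_smul ξ _ _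
  have t2 : ((((s : ℝ) : ℂ) • ξ) * w.L (ex ξ (-(s / 2)))).trace.re =
      s * tp ξ (w.L (ex ξ (-(s / 2)))) := tp_smul ξ _ _
  rw [t1] at c1
  rw [t2] at c2
  set q := tp ξ (w.L (ex ξ (-(s / 2)))) with hq
  nlinarith [mul_le_mul_of_nonneg_left c1 hs0, mul_le_mul_of_nonneg_left c2 (sub_nonneg.mpr hsR)]

/-! ### Continuity and compactness -/

theorem continuous_ex (N : ℕ) (s : ℝ) :
    Continuous (fun ξ : Matrix (Fin N) (Fin N) ℂ => ex ξ s) :=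
  (continuous_mexp N).comp (continuous_const_smul ((s : ℝ) : ℂ))

theorem det_pos (hJEN : StJEN) (N p : ℕ) (ξ : Matrix (Fin N) (Fin N) ℂ) (hξ : ξ.IsHermitian)
    (V : Matrix (Fin N) (Fin p) ℂ) (hV : Vᴴ * V = 1) (s : ℝ) :
    0 < ((Vᴴ * ex ξ s * V).det).re :=
  lt_of_lt_of_le (Real.exp_pos _) (hJEN N p _ V (herm_smul hξ s) hV)

theorem continuousOn_f (hJEN : StJEN) (N : ℕ) (w : WF N) (hw : w.Ok) (s : ℝ) :
    ContinuousOn (fun ξ : Matrix (Fin N) (Fin N) ℂ => w.f (ex ξ s)) {ξ | ξ.IsHermitian} := by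
  unfold WF.f
  refine ContinuousOn.add (continuousOn_finsetSum _ fun i _ => ?_) ?_
  · refine continuousOn_const.mul (ContinuousOn.log ?_ fun ξ hξ => ?_)
    · refine Continuous.continuousOn (Complex.continuous_re.comp (Continuous.matrix_det ?_))
      exact (continuous_const.matrix_mul (continuous_ex N s)).matrix_mul continuous_const
    · exact (det_pos hJEN N _ ξ hξ (w.V i) (hw.orth i) s).ne'
  · refine continuousOn_const.mul (ContinuousOn.log ?_ fun ξ hξ => ?_)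
    · exact Continuous.continuousOn (Complex.continuous_re.comp
        (Continuous.matrix_det (continuous_ex N s)))
    · have := (det_pos hJEN N N ξ hξ 1 (by simp) s).ne'
      simpa using this

theorem continuous_hs (N : ℕ) : Continuous (fun ξ : Matrix (Fin N) (Fin N) ℂ => hs ξ) := by
  unfold hs
  refine continuous_finsetSum _ fun i _ => continuous_finsetSum _ fun j _ => ?_
  exact ((continuous_id.matrix_elem i j).norm).pow 2

theorem isClosed_K (N : ℕ) (𝒮 : Submodule ℝ (Matrix (Fin N) (Fin N) ℂ)) :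
    IsClosed {ξ : Matrix (Fin N) (Fin N) ℂ | ξ ∈ 𝒮 ∧ hs ξ = 1} :=
  (Submodule.closed_of_finiteDimensional 𝒮).inter
    (isClosed_eq (continuous_hs N) continuous_const)

theorem isCompact_K (N : ℕ) (𝒮 : Submodule ℝ (Matrix (Fin N) (Fin N) ℂ)) :
    IsCompact {ξ : Matrix (Fin N) (Fin N) ℂ | ξ ∈ 𝒮 ∧ hs ξ = 1} := by
  have hc : IsCompact (Set.pi Set.univ (fun _ : Fin N => Set.pi Set.univ
      (fun _ : Fin N => Metric.closedBall (0 : ℂ) 1))) :=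
    isCompact_univ_pi fun _ => isCompact_univ_pi fun _ => isCompact_closedBall _ _
  refine IsCompact.of_isClosed_subset hc (isClosed_K N 𝒮) ?_
  rintro ξ ⟨-, h1⟩ i - j -
  rw [mem_closedBall_zero_iff]
  have h2 : ‖ξ i j‖ ^ 2 ≤ hs ξ := by
    unfold hs
    refine le_trans ?_ (Finset.single_le_sum (f := fun i => ∑ j, ‖ξ i j‖ ^ 2)
      (fun i _ => by positivity) (Finset.mem_univ i))
    exact Finset.single_le_sum (f := fun j => ‖ξ i j‖ ^ 2)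
      (fun j _ => by positivity) (Finset.mem_univ j)
  rw [h1] at h2
  exact (sq_le_one_iff₀ (norm_nonneg _)).mp h2

theorem hDIR (hJEN : StJEN) (hCOC : StCOC) (hHSL : StHSL) (hFLG : StFLG) : StDIR := by
  intro N w 𝒮 𝒢 ε hw hS h1G hexp hlog hε hε1 hL hone
  set L := Real.sqrt (hs (w.L 1)) with hLdef
  have hL0 : 0 < L := Real.sqrt_pos.mpr hL
  set Cs : ℝ → Set (Matrix (Fin N) (Fin N) ℂ) := fun s =>
    {ξ | ξ ∈ {ξ : Matrix (Fin N) (Fin N) ℂ | ξ ∈ 𝒮 ∧ hs ξ = 1} ∧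
      w.f (ex ξ (-s)) ≤ -(s * ((1 - 3 * ε) * L))} with hCs
  have hCscl : ∀ s, IsClosed (Cs s) := fun s => by
    refine (isClosed_K N 𝒮).isClosed_le ?_ continuousOn_const
    exact (continuousOn_f hJEN N w hw (-s)).mono fun ξ hξ => hS ξ hξ.1
  set t : ℕ → Set (Matrix (Fin N) (Fin N) ℂ) := fun n =>
    {ξ : Matrix (Fin N) (Fin N) ℂ | ξ ∈ 𝒮 ∧ hs ξ = 1} ∩
      ⋂ s : {s : ℝ // 0 ≤ s ∧ s ≤ (n + 1) * (1 - 2 * ε)}, Cs s with ht
  have htcl : ∀ n, IsClosed (t n) := fun n =>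
    (isClosed_K N 𝒮).inter (isClosed_iInter fun s => hCscl s)
  have hne : (⋂ n, t n).Nonempty := by
    refine IsCompact.nonempty_iInter_of_sequence_nonempty_isCompact_isClosed t ?_ ?_ ?_ htcl
    · rintro n ξ ⟨h1, h2⟩
      refine ⟨h1, Set.mem_iInter.mpr ?_⟩
      rintro ⟨s, hs0, hs1⟩
      have := Set.mem_iInter.mp h2 ⟨s, hs0, hs1.trans ?_⟩
      · exact this
      · push_cast
        nlinarith
    · intro n
      obtain ⟨ξ, hξ, hξ1, R, hR1, hR2, hf⟩ := far hCOC hHSL hFLG N w 𝒮 𝒢 ε hw hS h1G hexp hlog hε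
        hε1 hL hone (n + 1) (by positivity)
      refine ⟨ξ, ⟨hξ, hξ1⟩, Set.mem_iInter.mpr ?_⟩
      rintro ⟨s, hs0, hs1⟩
      refine ⟨⟨hξ, hξ1⟩, ?_⟩
      have hTp : (0 : ℝ) < (n + 1) * (1 - 2 * ε) := mul_pos (by positivity) (by linarith)
      have hRp : 0 < R := lt_of_lt_of_le hTp hR1
      have hr := ray hCOC N w hw ξ (hS ξ hξ) s R hs0 (hs1.trans hR1)
      rw [← hLdef] at hf
      have h3 : s * w.f (ex ξ (-R)) ≤ s * (-((n + 1) * (1 - 2 * ε) * L)) :=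
        mul_le_mul_of_nonneg_left hf hs0
      have h4 : (1 - 3 * ε) * R ≤ (n + 1) * (1 - 2 * ε) := by
        calc (1 - 3 * ε) * R ≤ (1 - 3 * ε) * ((n + 1) * (1 + ε)) :=
              mul_le_mul_of_nonneg_left hR2 (by linarith)
          _ = (n + 1) * (1 - 2 * ε) - (n + 1) * (3 * ε ^ 2) := by ring
          _ ≤ (n + 1) * (1 - 2 * ε) := by
              have : (0 : ℝ) ≤ (n + 1) * (3 * ε ^ 2) := by positivity
              linarith
      have h5 : s * L * ((1 - 3 * ε) * R) ≤ s * L * ((n + 1) * (1 - 2 * ε)) :=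
        mul_le_mul_of_nonneg_left h4 (by positivity)
      have h6 : R * w.f (ex ξ (-s)) ≤ R * (-(s * ((1 - 3 * ε) * L))) := by
        refine (hr.trans h3).trans ?_
        nlinarith
      exact le_of_mul_le_mul_left h6 hRp
    · exact IsCompact.of_isClosed_subset (isCompact_K N 𝒮) (htcl 0) fun ξ hξ => hξ.1
  obtain ⟨ξ, hξ⟩ := hne
  have h0 := Set.mem_iInter.mp hξ
  refine ⟨ξ, (h0 0).1.1, (h0 0).1.2, fun s hs0 => ?_⟩
  obtain ⟨n, hn⟩ := exists_nat_gt (s / (1 - 2 * ε))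
  have h12 : 0 < 1 - 2 * ε := by linarith
  rw [div_lt_iff₀ h12] at hn
  have h1 := Set.mem_iInter.mp (h0 n).2 ⟨s, hs0, by nlinarith⟩
  have h2 : w.f (ex ξ (-s)) ≤ -(s * ((1 - 3 * ε) * L)) := h1.2
  have h3 : ex ξ (-s) = NormedSpace.exp (-((s : ℂ) • ξ)) := by
    unfold ex; congr 1; rw [Complex.ofReal_neg, neg_smul]
  rw [← h3]
  exact h2

end Pool.Agent.Helper61.KP
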