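import Pool.Agent.Helper93.KP.St

/-!
# Project KP, module EXP: sums of `PP` and `PC` over one class
-/

set_option autoImplicit false

namespace Pool.Agent.Helper61.KP

open Finset Filter Topology Pool.Agent.Helper93.KP
open Pool.Agent.Helper15.AB (ee Kl StDB StMT)
open Pool.Agent.Helper9.TW (Rg)

private theorem cd_congr {d k k' m l x y : ℕ} (hm : Nat.Coprime m d) (hl : Nat.Coprime l d)
    (hx : Nat.Coprime x d) (hy : Nat.Coprime y d) :
    cd k k' m l x y = cd (k * d) k' m l x y := by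
  have h : (Nat.Coprime (m * l) k ∧ Squarefree (x * y) ∧ Nat.Coprime (x * y) (k * k' * (m * l))) ↔
      (Nat.Coprime (m * l) (k * d) ∧ Squarefree (x * y) ∧
        Nat.Coprime (x * y) (k * d * k' * (m * l))) := by
    have h1 : Nat.Coprime (m * l) d := Nat.Coprime.mul_left hm hl
    have h2 : Nat.Coprime (x * y) d := Nat.Coprime.mul_left hx hy
    have e1 : Nat.Coprime (m * l) (k * d) ↔ Nat.Coprime (m * l) k :=
      ⟨fun h => (Nat.coprime_mul_iff_right.1 h).1, fun h => Nat.coprime_mul_iff_right.2 ⟨h, h1⟩⟩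
    have e2 : Nat.Coprime (x * y) (k * d * k' * (m * l)) ↔
        Nat.Coprime (x * y) (k * k' * (m * l)) := by
      have e3 : k * d * k' * (m * l) = k * k' * (m * l) * d := by ring
      rw [e3]
      exact ⟨fun h => (Nat.coprime_mul_iff_right.1 h).1,
        fun h => Nat.coprime_mul_iff_right.2 ⟨h, h2⟩⟩
    rw [e1, e2]
  unfold cd
  by_cases hp : Nat.Coprime (m * l) k ∧ Squarefree (x * y) ∧
      Nat.Coprime (x * y) (k * k' * (m * l))
  · rw [if_pos hp, if_pos (h.1 hp)]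
  · rw [if_neg hp, if_neg fun q => hp (h.2 q)]

private theorem sum_ite_card (S : Finset ℕ) (c : ℝ) (P : ℕ → Prop) [DecidablePred P] :
    ∑ n ∈ S, c * (if P n then (1 : ℝ) else 0) = c * ((S.filter P).card : ℝ) := by
  rw [← Finset.mul_sum, Finset.sum_ite, Finset.sum_const_zero, add_zero, Finset.sum_const,
    nsmul_eq_mul, mul_one]

private theorem first {C δ : ℝ} {a d ν k k' T : ℕ} {θ B : ℝ} {al be : ℕ → ℕ → ℝ} (hB0 : 0 ≤ B)
    (hC : 0 < C)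
    (hBL : ∀ al be al' be' : ℕ → ℝ, (∀ m, |al m| ≤ 1) → (∀ m, |be m| ≤ 1) → (∀ m, |al' m| ≤ 1) →
      (∀ m, |be' m| ≤ 1) →
      |∑ m ∈ Icc 1 ⌊(a : ℝ) ^ (1 - δ)⌋₊, ∑ n ∈ Icc 1 ⌊(a : ℝ) ^ (1 / 10 - δ)⌋₊,
        ∑ x ∈ Icc 1 ⌊(a : ℝ) ^ (1 - δ)⌋₊, ∑ y ∈ Icc 1 ⌊(a : ℝ) ^ (1 / 10 - δ)⌋₊,
        cd (k * d) k' m n x y * (al m * be n * al' x * be' y) *
        ((cn a d ν k k' (m * n) (x * y) : ℝ) - 3 * (a : ℝ) ^ 2 / (d * (m * n : ℕ) * (x * y : ℕ)))| ≤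
      C * (a : ℝ) ^ (2 - δ / 20))
    (hcop : ∀ m, Rg a ((a : ℝ) ^ θ) m → Nat.Coprime m d)
    (hbd : ∀ t m, |al t m| ≤ B ∧ |be t m| ≤ B) (hsal : ∀ t m, al t m ≠ 0 → Rg a ((a : ℝ) ^ θ) m)
    (hsbe : ∀ t m, be t m ≠ 0 → Rg a ((a : ℝ) ^ θ) m) (t s : ℕ) :
    |∑ m ∈ Icc 1 ⌊(a : ℝ) ^ (1 - δ)⌋₊, ∑ n ∈ Icc 1 ⌊(a : ℝ) ^ (1 / 10 - δ)⌋₊,
        ∑ x ∈ Icc 1 ⌊(a : ℝ) ^ (1 - δ)⌋₊, ∑ y ∈ Icc 1 ⌊(a : ℝ) ^ (1 / 10 - δ)⌋₊,
        cd k k' m n x y * (al t m * be t n * al s x * be s y) *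
        ((cn a d ν k k' (m * n) (x * y) : ℝ) - 3 * (a : ℝ) ^ 2 / (d * (m * n : ℕ) * (x * y : ℕ)))| ≤
      C * B ^ 4 * (a : ℝ) ^ (2 - δ / 20) := by
  rcases hB0.eq_or_lt with hB | hB
  · have hz : ∀ m, al t m = 0 := fun m => by
      have := (hbd t m).1
      rw [← hB] at this
      exact abs_nonpos_iff.mp this
    simp only [hz, zero_mul, mul_zero, Finset.sum_const_zero, abs_zero]
    rw [← hB]; simp
  · have h7 := hBL (fun m => al t m / B) (fun m => be t m / B) (fun m => al s m / B)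
      (fun m => be s m / B)
      (fun m => by rw [abs_div, abs_of_pos hB]; exact (div_le_one hB).mpr (hbd t m).1)
      (fun m => by rw [abs_div, abs_of_pos hB]; exact (div_le_one hB).mpr (hbd t m).2)
      (fun m => by rw [abs_div, abs_of_pos hB]; exact (div_le_one hB).mpr (hbd s m).1)
      (fun m => by rw [abs_div, abs_of_pos hB]; exact (div_le_one hB).mpr (hbd s m).2)
    have hterm : ∀ m n x y : ℕ, cd k k' m n x y * (al t m * be t n * al s x * be s y) =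
        B ^ 4 * (cd (k * d) k' m n x y *
          (al t m / B * (be t n / B) * (al s x / B) * (be s y / B))) := by
      intro m n x y
      by_cases h0 : al t m * be t n * al s x * be s y = 0
      · have h1 : al t m / B * (be t n / B) * (al s x / B) * (be s y / B) =
            (al t m * be t n * al s x * be s y) / B ^ 4 := by
          field_simp
        rw [h1, h0]; simp
      · have h1 : al t m ≠ 0 := fun h => h0 (by rw [h]; ring)
        have h2 : be t n ≠ 0 := fun h => h0 (by rw [h]; ring)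
        have h3 : al s x ≠ 0 := fun h => h0 (by rw [h]; ring)
        have h4 : be s y ≠ 0 := fun h => h0 (by rw [h]; ring)
        rw [cd_congr (hcop m (hsal t m h1)) (hcop n (hsbe t n h2)) (hcop x (hsal s x h3))
          (hcop y (hsbe s y h4))]
        field_simp
    have h8 : ∑ m ∈ Icc 1 ⌊(a : ℝ) ^ (1 - δ)⌋₊, ∑ n ∈ Icc 1 ⌊(a : ℝ) ^ (1 / 10 - δ)⌋₊,
        ∑ x ∈ Icc 1 ⌊(a : ℝ) ^ (1 - δ)⌋₊, ∑ y ∈ Icc 1 ⌊(a : ℝ) ^ (1 / 10 - δ)⌋₊,
        cd k k' m n x y * (al t m * be t n * al s x * be s y) *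
        ((cn a d ν k k' (m * n) (x * y) : ℝ) - 3 * (a : ℝ) ^ 2 / (d * (m * n : ℕ) * (x * y : ℕ))) =
        B ^ 4 * ∑ m ∈ Icc 1 ⌊(a : ℝ) ^ (1 - δ)⌋₊, ∑ n ∈ Icc 1 ⌊(a : ℝ) ^ (1 / 10 - δ)⌋₊,
        ∑ x ∈ Icc 1 ⌊(a : ℝ) ^ (1 - δ)⌋₊, ∑ y ∈ Icc 1 ⌊(a : ℝ) ^ (1 / 10 - δ)⌋₊,
        cd (k * d) k' m n x y * (al t m / B * (be t n / B) * (al s x / B) * (be s y / B)) *
        ((cn a d ν k k' (m * n) (x * y) : ℝ) -
          3 * (a : ℝ) ^ 2 / (d * (m * n : ℕ) * (x * y : ℕ))) := by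
      rw [Finset.mul_sum]
      refine Finset.sum_congr rfl fun m _ => ?_
      rw [Finset.mul_sum]
      refine Finset.sum_congr rfl fun n _ => ?_
      rw [Finset.mul_sum]
      refine Finset.sum_congr rfl fun x _ => ?_
      rw [Finset.mul_sum]
      refine Finset.sum_congr rfl fun y _ => ?_
      rw [hterm]
      ring
    rw [h8, abs_mul, abs_of_nonneg (by positivity)]
    calc B ^ 4 * _ ≤ B ^ 4 * (C * (a : ℝ) ^ (2 - δ / 20)) :=
          mul_le_mul_of_nonneg_left h7 (by positivity)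
      _ = C * B ^ 4 * (a : ℝ) ^ (2 - δ / 20) := by ring

private theorem sumPC (a d ν k k' T : ℕ) (M N : ℝ) (al be : ℕ → ℕ → ℝ) :
    ∑ n ∈ (NN a).filter (fun n => n % d = ν), PC T M N al be k k' n =
      ∑ t ∈ range T, ∑ s ∈ range T, ∑ m ∈ Icc 1 ⌊M⌋₊, ∑ l ∈ Icc 1 ⌊N⌋₊,
        ∑ x ∈ Icc 1 ⌊M⌋₊, ∑ y ∈ Icc 1 ⌊N⌋₊, cd k k' m l x y * (al t m * be t l * al s x * be s y) *
        (cn a d ν k k' (m * l) (x * y) : ℝ) := by
  unfold PC
  rw [Finset.sum_comm]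
  refine Finset.sum_congr rfl fun t _ => ?_
  rw [Finset.sum_comm]
  refine Finset.sum_congr rfl fun s _ => ?_
  rw [Finset.sum_comm]
  refine Finset.sum_congr rfl fun m _ => ?_
  rw [Finset.sum_comm]
  refine Finset.sum_congr rfl fun l _ => ?_
  rw [Finset.sum_comm]
  refine Finset.sum_congr rfl fun x _ => ?_
  rw [Finset.sum_comm]
  refine Finset.sum_congr rfl fun y _ => ?_
  rw [sum_ite_card, Finset.filter_filter]
  rfl

private theorem sumMC (a d k k' T : ℕ) (M N : ℝ) (al be : ℕ → ℕ → ℝ) :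
    3 * (a : ℝ) ^ 2 / d * MC T M N al be k k' =
      ∑ t ∈ range T, ∑ s ∈ range T, ∑ m ∈ Icc 1 ⌊M⌋₊, ∑ l ∈ Icc 1 ⌊N⌋₊,
        ∑ x ∈ Icc 1 ⌊M⌋₊, ∑ y ∈ Icc 1 ⌊N⌋₊, cd k k' m l x y * (al t m * be t l * al s x * be s y) *
        (3 * (a : ℝ) ^ 2 / (d * (m * l : ℕ) * (x * y : ℕ))) := by
  unfold MC
  simp only [Finset.mul_sum]
  refine Finset.sum_congr rfl fun t _ => Finset.sum_congr rfl fun s _ =>
    Finset.sum_congr rfl fun m _ => Finset.sum_congr rfl fun l _ =>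
    Finset.sum_congr rfl fun x _ => Finset.sum_congr rfl fun y _ => ?_
  rw [div_mul_div_comm, mul_div_assoc', mul_assoc (d : ℝ)]
  congr 1
  ring

/-- EXP -/
theorem hEXP (hB : StBLV) (hS : StSGL) : StEXP := by
  intro δ hδ hδ1
  obtain ⟨C, hC, hBL⟩ := hB δ hδ hδ1
  refine ⟨C, hC, ?_⟩
  intro a d ν k k' T θ B al be ha hd hν hk hk' hkk hka hk'a hda hpd hSup
  obtain ⟨hbd, hsal, hsbe⟩ := hSup
  have hB0 : 0 ≤ B := (abs_nonneg _).trans (hbd 0 0).1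
  have ha1 : (1 : ℝ) ≤ a := by exact_mod_cast (by omega : 1 ≤ a)
  have ha0 : (0 : ℝ) < a := by linarith
  have hcop : ∀ m, Rg a ((a : ℝ) ^ θ) m → Nat.Coprime m d := by
    intro m hm
    by_contra h
    obtain ⟨p, hp, hpm, hpd'⟩ := Nat.Prime.not_coprime_iff_dvd.1 h
    have h1 := (hm.2 p hp hpm).1
    have h2 := hpd p hp hpd'
    linarith
  constructor
  · have hBL' := fun al be al' be' => hBL a d ν k k' al be al' be' (by omega) hd hν hk hk' hkk hka hk'a hda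
    have hts := fun t s => first (T := T) hB0 hC hBL' hcop hbd hsal hsbe t s
    rw [sumPC, sumMC, ← Finset.sum_sub_distrib]
    have hsum : ∀ t ∈ range T, |∑ s ∈ range T, ∑ m ∈ Icc 1 ⌊(a : ℝ) ^ (1 - δ)⌋₊,
        ∑ l ∈ Icc 1 ⌊(a : ℝ) ^ (1 / 10 - δ)⌋₊, ∑ x ∈ Icc 1 ⌊(a : ℝ) ^ (1 - δ)⌋₊,
        ∑ y ∈ Icc 1 ⌊(a : ℝ) ^ (1 / 10 - δ)⌋₊,
        cd k k' m l x y * (al t m * be t l * al s x * be s y) *
          (cn a d ν k k' (m * l) (x * y) : ℝ) -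
        ∑ s ∈ range T, ∑ m ∈ Icc 1 ⌊(a : ℝ) ^ (1 - δ)⌋₊,
        ∑ l ∈ Icc 1 ⌊(a : ℝ) ^ (1 / 10 - δ)⌋₊, ∑ x ∈ Icc 1 ⌊(a : ℝ) ^ (1 - δ)⌋₊,
        ∑ y ∈ Icc 1 ⌊(a : ℝ) ^ (1 / 10 - δ)⌋₊,
        cd k k' m l x y * (al t m * be t l * al s x * be s y) *
          (3 * (a : ℝ) ^ 2 / (d * (m * l : ℕ) * (x * y : ℕ)))| ≤
        T * (C * B ^ 4 * (a : ℝ) ^ (2 - δ / 20)) := by
      intro t _
      rw [← Finset.sum_sub_distrib]
      calc _ ≤ ∑ s ∈ range T, (C * B ^ 4 * (a : ℝ) ^ (2 - δ / 20)) := by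
            refine (Finset.abs_sum_le_sum_abs _ _).trans (Finset.sum_le_sum fun s _ => ?_)
            refine le_trans (le_of_eq ?_) (hts t s)
            congr 1
            simp only [← Finset.sum_sub_distrib, ← mul_sub]
        _ = T * (C * B ^ 4 * (a : ℝ) ^ (2 - δ / 20)) := by
            rw [Finset.sum_const, card_range, nsmul_eq_mul]
    refine (Finset.abs_sum_le_sum_abs _ _).trans ((Finset.sum_le_sum hsum).trans (le_of_eq ?_))
    rw [Finset.sum_const, card_range, nsmul_eq_mul]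
    ring
  · have hk1 : k ≤ a := by
      have h1 : (k : ℝ) ≤ (a : ℝ) ^ (1 : ℝ) :=
        hka.trans (Real.rpow_le_rpow_of_exponent_le ha1 (by linarith))
      rw [Real.rpow_one] at h1
      exact_mod_cast h1
    have hPP : ∑ n ∈ (NN a).filter (fun n => n % d = ν),
        PP T ((a : ℝ) ^ (1 - δ)) ((a : ℝ) ^ (1 / 10 - δ)) al be (vk n k) =
        ∑ t ∈ range T, ∑ m ∈ Icc 1 ⌊(a : ℝ) ^ (1 - δ)⌋₊, ∑ l ∈ Icc 1 ⌊(a : ℝ) ^ (1 / 10 - δ)⌋₊,
          al t m * be t l *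
            (((NN a).filter (fun n => n % d = ν ∧ m * l ∣ vk n k)).card : ℝ) := by
      unfold PP
      rw [Finset.sum_comm]
      refine Finset.sum_congr rfl fun t _ => ?_
      rw [Finset.sum_comm]
      refine Finset.sum_congr rfl fun m _ => ?_
      rw [Finset.sum_comm]
      refine Finset.sum_congr rfl fun l _ => ?_
      rw [sum_ite_card, Finset.filter_filter]
    have hMK : 3 * (a : ℝ) ^ 2 / d * MK T ((a : ℝ) ^ (1 - δ)) ((a : ℝ) ^ (1 / 10 - δ)) al be k =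
        ∑ t ∈ range T, ∑ m ∈ Icc 1 ⌊(a : ℝ) ^ (1 - δ)⌋₊, ∑ l ∈ Icc 1 ⌊(a : ℝ) ^ (1 / 10 - δ)⌋₊,
          al t m * be t l * (3 * (a : ℝ) ^ 2 / (d * (m * l : ℕ)) *
            (if Nat.Coprime (m * l) k then (1 : ℝ) else 0)) := by
      unfold MK
      simp only [Finset.mul_sum]
      refine Finset.sum_congr rfl fun t _ => Finset.sum_congr rfl fun m _ =>
        Finset.sum_congr rfl fun l _ => ?_
      by_cases hc : Nat.Coprime (m * l) k
      · rw [if_pos hc, mul_one, mul_one, div_mul_div_comm, mul_div_assoc']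
        push_cast
        congr 1
        ring
      · rw [if_neg hc, mul_zero, mul_zero, mul_zero, mul_zero]
    rw [hPP, hMK, ← Finset.sum_sub_distrib]
    have hone : ∀ t m l : ℕ, 1 ≤ m → 1 ≤ l → |al t m * be t l *
        (((NN a).filter (fun n => n % d = ν ∧ m * l ∣ vk n k)).card : ℝ) -
        al t m * be t l * (3 * (a : ℝ) ^ 2 / (d * (m * l : ℕ)) *
            (if Nat.Coprime (m * l) k then (1 : ℝ) else 0))| ≤ B ^ 2 := by
      intro t m l hm hl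
      rw [← mul_sub, abs_mul]
      by_cases h0 : al t m * be t l = 0
      · rw [h0, abs_zero, zero_mul]; positivity
      have h1 : al t m ≠ 0 := fun h => h0 (by rw [h]; ring)
      have h2 : be t l ≠ 0 := fun h => h0 (by rw [h]; ring)
      have hq : Nat.Coprime (m * l) d :=
        Nat.Coprime.mul_left (hcop m (hsal t m h1)) (hcop l (hsbe t l h2))
      obtain ⟨-, s2, s3⟩ := hS a d ν k (m * l) ha hd hν hk hk1 (Nat.mul_pos hm hl)
      have h3 : |(((NN a).filter (fun n => n % d = ν ∧ m * l ∣ vk n k)).card : ℝ) -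
          3 * (a : ℝ) ^ 2 / (d * (m * l : ℕ)) *
            (if Nat.Coprime (m * l) k then (1 : ℝ) else 0)| ≤ 1 := by
        by_cases hc : Nat.Coprime (m * l) k
        · rw [if_pos hc, mul_one]
          exact s2 hq hc
        · rw [if_neg hc, mul_zero, sub_zero]
          have h4 : ((NN a).filter (fun n => n % d = ν ∧ m * l ∣ vk n k)) = ∅ := by
            rw [Finset.filter_eq_empty_iff]
            rintro n hn ⟨-, h⟩
            exact s3 hc n hn h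
          rw [h4]; simp
      have h5 : |al t m * be t l| ≤ B ^ 2 := by
        rw [abs_mul, sq]
        exact mul_le_mul (hbd t m).1 (hbd t l).2 (abs_nonneg _) hB0
      calc |al t m * be t l| * _ ≤ B ^ 2 * 1 :=
            mul_le_mul h5 h3 (abs_nonneg _) (by positivity)
        _ = B ^ 2 := mul_one _
    have hM : (⌊(a : ℝ) ^ (1 - δ)⌋₊ : ℝ) ≤ (a : ℝ) ^ (1 - δ) := Nat.floor_le (by positivity)
    have hN : (⌊(a : ℝ) ^ (1 / 10 - δ)⌋₊ : ℝ) ≤ (a : ℝ) ^ (1 / 10 - δ) :=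
      Nat.floor_le (by positivity)
    have hMN : (⌊(a : ℝ) ^ (1 - δ)⌋₊ : ℝ) * ⌊(a : ℝ) ^ (1 / 10 - δ)⌋₊ ≤ (a : ℝ) ^ (11 / 10 : ℝ) := by
      calc (⌊(a : ℝ) ^ (1 - δ)⌋₊ : ℝ) * ⌊(a : ℝ) ^ (1 / 10 - δ)⌋₊
          ≤ (a : ℝ) ^ (1 - δ) * (a : ℝ) ^ (1 / 10 - δ) :=
            mul_le_mul hM hN (by positivity) (by positivity)
        _ = (a : ℝ) ^ (1 - δ + (1 / 10 - δ)) := (Real.rpow_add ha0 _ _).symm
        _ ≤ (a : ℝ) ^ (11 / 10 : ℝ) := Real.rpow_le_rpow_of_exponent_le ha1 (by linarith)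
    have hsum : ∀ t ∈ range T, |∑ m ∈ Icc 1 ⌊(a : ℝ) ^ (1 - δ)⌋₊,
        ∑ l ∈ Icc 1 ⌊(a : ℝ) ^ (1 / 10 - δ)⌋₊, al t m * be t l *
          (((NN a).filter (fun n => n % d = ν ∧ m * l ∣ vk n k)).card : ℝ) -
        ∑ m ∈ Icc 1 ⌊(a : ℝ) ^ (1 - δ)⌋₊, ∑ l ∈ Icc 1 ⌊(a : ℝ) ^ (1 / 10 - δ)⌋₊,
          al t m * be t l * (3 * (a : ℝ) ^ 2 / (d * (m * l : ℕ)) *
            (if Nat.Coprime (m * l) k then (1 : ℝ) else 0))| ≤
        B ^ 2 * (a : ℝ) ^ (11 / 10 : ℝ) := by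
      intro t _
      rw [← Finset.sum_sub_distrib]
      calc _ ≤ ∑ m ∈ Icc 1 ⌊(a : ℝ) ^ (1 - δ)⌋₊, ∑ l ∈ Icc 1 ⌊(a : ℝ) ^ (1 / 10 - δ)⌋₊, B ^ 2 := by
            refine (Finset.abs_sum_le_sum_abs _ _).trans (Finset.sum_le_sum fun m hm => ?_)
            rw [← Finset.sum_sub_distrib]
            refine (Finset.abs_sum_le_sum_abs _ _).trans (Finset.sum_le_sum fun l hl => ?_)
            exact hone t m l (mem_Icc.1 hm).1 (mem_Icc.1 hl).1
        _ = (⌊(a : ℝ) ^ (1 - δ)⌋₊ : ℝ) * ⌊(a : ℝ) ^ (1 / 10 - δ)⌋₊ * B ^ 2 := by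
            simp only [Finset.sum_const, Nat.card_Icc, nsmul_eq_mul, Nat.add_sub_cancel]
            ring
        _ ≤ (a : ℝ) ^ (11 / 10 : ℝ) * B ^ 2 := mul_le_mul_of_nonneg_right hMN (by positivity)
        _ = B ^ 2 * (a : ℝ) ^ (11 / 10 : ℝ) := mul_comm _ _
    refine (Finset.abs_sum_le_sum_abs _ _).trans ((Finset.sum_le_sum hsum).trans (le_of_eq ?_))
    rw [Finset.sum_const, card_range, nsmul_eq_mul]
    ring

end Pool.Agent.Helper61.KP
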